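import Pool.Agent.N204.HR.Stm2

/-!
# The standard conjecture of Hodge type for almost all reductions: the parts
-/

set_option linter.unusedSectionVars false

open CategoryTheory AlgebraicGeometry TensorProduct

universe u

namespace Pool.Agent.N204.HR

open Module
open Pool.Agent.H914 Pool.Agent.H914.VarClass
open Pool.Agent.Y121.AHS
open Pool.Agent.N996.BP (RForm)
open Pool.Agent.N204.RD.Raw (Coh coh)

/-- **Task GR** (the generated classes have the properties of the classes of the algebraic cycles on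
the reduction). -/
def S_GR : Prop := ∀ (k : Type u) [Field k] (𝒱 : VarClass k) (ops : CycleOps 𝒱)
  (T : HodgeTheory ops) (X : 𝒱.Obj) (ψ : RForm T.W X) (E : Type) [Field E] [Algebra T.W.K E]
  (Γ : Type) [Group Γ] (χ : Γ →* E) (ρ : ∀ n, Γ → (coh T E ψ).H n → (coh T E ψ).H n),
  RD.Raw.IsGalois (coh T E ψ) χ ρ → ∀ φ, RD.Raw.IsFrobenius (coh T E ψ) χ ρ φ →
  ∃ p : ℕ, χ φ = p ∧ (∀ i, ∃ Q, Raw.Weil (coh T E ψ) p (ρ 0 φ) i Q) ∧
    Raw.IsFrobenius (coh T E ψ) p (fun n => ρ n φ) (coh T E ψ).cyc ∧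
    RD.Raw.IsReduction (coh T E ψ) χ ρ φ
      (fun n j => {x | Raw.Gen (coh T E ψ) (ρ 0 φ) (coh T E ψ).cyc n j x})

/-- **Task LA** (rational linear algebra). -/
def S_LA : Prop := ∀ (E V : Type) [Field E] [CharZero E] [AddCommGroup V] [Module E V]
  [Module.Finite E V] (B : V → V → E) (P Q : Set V),
  (∀ y x x', B y (x + x') = B y x + B y x') → (∀ y (c : E) x, B y (c • x) = c * B y x) →
  (0 : V) ∈ P → (∀ x ∈ P, ∀ y ∈ P, x + y ∈ P) → (∀ x ∈ P, ∀ r : ℚ, (r : E) • x ∈ P) →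
  (∀ x ∈ P, ∀ y ∈ Q, ∃ r : ℚ, B y x = r) →
  (∀ x ∈ Submodule.span E P, (∀ y ∈ Q, B y x = 0) → x = 0) →
  ∀ x ∈ Submodule.span E P, (∀ y ∈ Q, ∃ r : ℚ, B y x = r) → x ∈ P

end Pool.Agent.N204.HR
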