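import Pool.Agent.N204.HR.Stm3
import Pool.Agent.N211.BT.TG2

/-!
# Homological = numerical equivalence for the generated classes implies semisimplicity
-/

set_option linter.unusedSectionVars false

open CategoryTheory AlgebraicGeometry TensorProduct

universe u

namespace Pool.Agent.N204.HR

open Module
open Pool.Agent.H914 Pool.Agent.H914.VarClass Pool.Agent.H914.VarClass.Obj
  Pool.Agent.H914.WeilCohomology
open Pool.Agent.Y133.Half (pw pfst psnd prj)
open Pool.Agent.Y121.AHS
open Pool.Agent.N996.BP (IsCoordinateMap RForm isCoordinateMap_iff)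
open Pool.Agent.N204.RD.Raw (Coh IsLin IsLinear coh ap)
open Pool.Agent.N204.HR.Raw

variable {k : Type u} [Field k] {𝒱 : VarClass k} {ops : CycleOps 𝒱}

lemma isCoord_swap (X : 𝒱.Obj) :
    IsCoordinateMap (X := X) (n := 1) (m := 1) (show pw X 1 ⟶ pw X 1 from swap X X) := by
  have h0 : swap X X ≫ fst X X = snd X X := Obj.lift_fst _ _
  have h1 : swap X X ≫ snd X X = fst X X := Obj.lift_snd _ _
  intro i hi
  obtain rfl | rfl : i = 0 ∨ i = 1 := by omega
  · refine ⟨1, le_rfl, ?_⟩
    change swap X X ≫ (fst X X ≫ 𝟙 X) = snd X X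
    rw [Category.comp_id, h0]
  · refine ⟨0, Nat.zero_le _, ?_⟩
    change swap X X ≫ snd X X = fst X X ≫ 𝟙 X
    rw [Category.comp_id, h1]

section

variable {T : HodgeTheory ops} {X : 𝒱.Obj} {ψ : RForm T.W X} {E : Type} [Field E]
  [Algebra T.W.K E] {q : ℕ} {φ : ∀ n, (coh T E ψ).H n → (coh T E ψ).H n}
  {S : ∀ n : ℕ, ℕ → Set (T.W.H (pw X n))}

lemma frobK (h : IsFrobenius (coh T E ψ) q φ (Raw.ext T E S)) :
    FrobK (baseW T.W E) X q φ where
  q_pos := h.q_pos
  add n := (h.lin n).1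
  smul n := (h.lin n).2
  mul := h.mul
  gr := h.deg
  map n m f hf x := h.pull n m _ ⟨f, hf, rfl⟩ x
  tr := h.tr

/-- The operator as a linear map. -/
noncomputable def lm (h : IsFrobenius (coh T E ψ) q φ (Raw.ext T E S)) (n : ℕ) :
    Module.End (baseW T.W E).K ((baseW T.W E).H (pw X n)) where
  toFun := φ n
  map_add' := (h.lin n).1
  map_smul' := (h.lin n).2

/-- **The converse.** -/
theorem conv (hGD : S_GD.{u}) (hF2 : S_F2.{u}) (hF3 : S_F3.{u}) (hF4 : S_F4.{u}) (hF5 : S_F5.{u})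
    (hF6 : S_F6) (hF7 : S_F7) (h : IsFrobenius (coh T E ψ) q φ (Raw.ext T E S))
    (hS : ∀ n j, ∀ c ∈ S n j, c ∈ T.W.gr (pw X n) (2 * j))
    (hW : ∀ i, ∃ Q, Weil (coh T E ψ) q (φ 0) i Q)
    (h1 : Gen (coh T E ψ) (φ 0) (Raw.ext T E S) 0 0 (emL T.W E (1 : T.W.H X)))
    (hN : HomNum (coh T E ψ) (φ 0) (Raw.ext T E S) 1) : Semisimple (coh T E ψ) q (φ 0) := by
  have hgd := hGD k 𝒱 ops T X ψ E (φ 0) S hS (h.lin 0) (h.deg 0)
  -- the uniform power
  obtain ⟨m, hm, hfix⟩ := hF6 (baseW T.W E).K ((baseW T.W E).H (pw X 1)) (lm h 1)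
    ((q : (baseW T.W E).K) ^ X.dim)
    {v | Gen (coh T E ψ) (φ 0) (Raw.ext T E S) 1 X.dim v} (by
      intro v hv
      obtain ⟨m, hm, h2⟩ := hF2 k 𝒱 ops T X ψ E q φ S h 1 X.dim v hv
      refine ⟨m, hm, ?_⟩
      rw [← pow_mul]
      exact h2)
  -- the operator on the cohomology of `X`
  obtain ⟨F, hF⟩ : ∃ F : Module.End (baseW T.W E).K ((baseW T.W E).H X),
      ∀ x : (baseW T.W E).H X, F x = (show (baseW T.W E).H X from φ 0 x) :=
    ⟨lm h 0, fun x => rfl⟩
  have hFi : ∀ (r : ℕ) (x : (baseW T.W E).H X),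
      (F ^ r) x = (show (baseW T.W E).H X from (φ 0)^[r] x) := by
    intro r
    induction r with
    | zero => intro x; rfl
    | succ r ih =>
      intro x
      rw [pow_succ', Module.End.mul_apply, ih, hF, Function.iterate_succ_apply']
  have hFgr : ∀ i, ∀ x ∈ (baseW T.W E).gr X i, F x ∈ (baseW T.W E).gr X i := by
    intro i x hx
    rw [hF]
    exact h.deg 0 i x hx
  have hker : ∀ R : Polynomial ℤ, IsNilpotent (Polynomial.aeval (F ^ m) R) →
      Polynomial.aeval (F ^ m) R = 0 := by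
    intro R hR
    obtain ⟨u, hu⟩ : ∃ u, u = Polynomial.aeval (F ^ m) R := ⟨_, rfl⟩
    rw [← hu] at hR ⊢
    have hu' : u = Polynomial.aeval F (Polynomial.expand ℤ m R) := by
      rw [Polynomial.expand_aeval, hu]
    have hugr : ∀ i, ∀ x ∈ (baseW T.W E).gr X i, u x ∈ (baseW T.W E).gr X i := by
      intro i x hx
      have hp : ∀ r : ℕ, (F ^ r) x ∈ (baseW T.W E).gr X i := by
        intro r
        induction r with
        | zero => exact hx
        | succ r ih => rw [pow_succ', Module.End.mul_apply]; exact hFgr i _ ih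
      rw [hu', Polynomial.aeval_eq_sum_range, LinearMap.sum_apply]
      refine Submodule.sum_mem _ fun r _ => ?_
      rw [LinearMap.smul_apply]
      exact zsmul_mem (hp r) _
    obtain ⟨h4a, h4b⟩ := hF4 k 𝒱 ops (baseW T.W E) X u hugr
    apply h4b
    obtain ⟨γ, hγ⟩ : ∃ γ, γ = extOp (baseW T.W E) 1 u ((baseW T.W E).push (diag X) 1) := ⟨_, rfl⟩
    have hgen : Gen (coh T E ψ) (φ 0) (Raw.ext T E S) 1 X.dim γ := by
      rw [hγ, hu']
      exact hF5 k 𝒱 ops T X ψ E q φ S h h1 F hF _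
    rw [← hγ]
    refine hN X.dim X.dim ?_ γ hgen ?_
    · exact (dim_prod X X).symm
    · intro y hy
      rw [hγ]
      refine h4a hR y (hgd 1 X.dim y hy) ?_
      have hsw : Gen (coh T E ψ) (φ 0) (Raw.ext T E S) 1 X.dim
          ((baseW T.W E).map (swap X X) (show (baseW T.W E).H (X.prod X) from y)) :=
        Gen.pull ⟨(show pw X 1 ⟶ pw X 1 from swap X X), isCoord_swap X, rfl⟩ hy
      have hcomm := hF3 k 𝒱 ops (baseW T.W E) X q φ (frobK h)
        ((baseW T.W E).map (swap X X) (show (baseW T.W E).H (X.prod X) from y)) m (by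
          rw [pow_mul]
          exact hfix _ hsw)
      have hpow : ∀ (r : ℕ) (a : (baseW T.W E).H X), ((F ^ m) ^ r) ((baseW T.W E).corr
          ((baseW T.W E).map (swap X X) (show (baseW T.W E).H (X.prod X) from y)) a) =
          (baseW T.W E).corr
          ((baseW T.W E).map (swap X X) (show (baseW T.W E).H (X.prod X) from y))
            (((F ^ m) ^ r) a) := by
        intro r
        induction r with
        | zero => intro a; rfl
        | succ r ih =>
          intro a
          rw [pow_succ', Module.End.mul_apply, Module.End.mul_apply, ih, hFi, hFi]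
          exact hcomm _
      intro a
      rw [hu, Polynomial.aeval_eq_sum_range, LinearMap.sum_apply, LinearMap.sum_apply, map_sum]
      refine Finset.sum_congr rfl fun r _ => ?_
      rw [LinearMap.smul_apply, LinearMap.smul_apply, hpow, map_zsmul]
  -- the polynomials
  choose Q hQ using hW
  have hsum : ∀ (R : Polynomial ℤ) (l : (coh T E ψ).H 0 → E), IsLin (coh T E ψ) l →
      ∀ x : (coh T E ψ).H 0, ∑ m ∈ Finset.range (R.natDegree + 1),
        (R.coeff m : E) * l ((φ 0)^[m] x) = l (show (baseW T.W E).H X from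
          Polynomial.aeval F R (show (baseW T.W E).H X from x)) := by
    intro R l hl x
    obtain ⟨l', hl'⟩ : ∃ l' : (baseW T.W E).H X →ₗ[(baseW T.W E).K] (baseW T.W E).K,
        ∀ y, l' y = l y :=
      ⟨{ toFun := l, map_add' := hl.1, map_smul' := fun c y => hl.2 c y }, fun _ => rfl⟩
    rw [← hl', Polynomial.aeval_eq_sum_range, LinearMap.sum_apply, map_sum]
    refine Finset.sum_congr rfl fun r _ => ?_
    rw [LinearMap.smul_apply, map_zsmul, hFi, hl', zsmul_eq_mul]
    rfl
  have hQ0 : ∀ i, ∀ x ∈ (baseW T.W E).gr X i, Polynomial.aeval F (Q i) x = 0 := by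
    intro i x hx
    rw [← Module.forall_dual_apply_eq_zero_iff (baseW T.W E).K]
    intro f
    have h3 : IsLin (coh T E ψ) (fun y => f (show (baseW T.W E).H X from y)) :=
      ⟨fun a b => map_add f _ _, fun c a => map_smul f (show (baseW T.W E).K from c)
        (show (baseW T.W E).H X from a)⟩
    exact (hsum (Q i) _ h3 x).symm.trans ((hQ i).2.2 x hx _ h3)
  intro i
  obtain ⟨Q', hQ1, hQ2, hQ3, hQ4⟩ := hF7 (baseW T.W E).K ((baseW T.W E).H X) ℕ
    (fun i => (baseW T.W E).gr X i) F Q m ((baseW T.W E).isInternal X).submodule_iSup_eq_top hm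
    (fun i => (hQ i).1) (fun i y hy hy0 => by
      have h3 := (hQ i).2.1 y hy
      rw [hy0, norm_zero] at h3
      have h4 : (0 : ℝ) < (q : ℝ) ^ i := pow_pos (by exact_mod_cast h.q_pos) _
      rw [← h3] at h4
      norm_num at h4) hFgr hQ0 hker i
  refine ⟨Q', ⟨hQ1, fun y hy => (hQ i).2.1 y (hQ3 y hy), fun x hx l hl => ?_⟩, hQ2⟩
  rw [hsum Q' l hl x]
  have h5 : Polynomial.aeval F Q' (show (baseW T.W E).H X from x) = 0 := hQ4 x hx
  rw [h5]
  have h6 := hl.2 0 (show (coh T E ψ).H 0 from (0 : HL T.W E X))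
  rw [zero_mul] at h6
  refine Eq.trans ?_ h6
  exact congrArg l (zero_smul E (0 : HL T.W E X)).symm

end

end Pool.Agent.N204.HR
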