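import Pool.Agent.N204.HR.Raw

/-!
# The properties of a semisimple Frobenius
-/

open CategoryTheory AlgebraicGeometry

universe u

namespace Pool.Agent.N204.HR.Raw

open Pool.Agent.N204.RD.Raw

variable {E : Type} [Field E] (O : Coh E)

/-- The properties of a semisimple Frobenius. -/
structure IsFrob (q : ℕ) (φ : ∀ n, O.H n → O.H n) (S : ∀ n : ℕ, ℕ → Set (O.H n)) : Prop where
  q_pos : 0 < q
  lin : ∀ n, IsLinear O n (φ n)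
  mul : ∀ n x y, φ n (O.mul n x y) = O.mul n (φ n x) (φ n y)
  deg : ∀ n i, ∀ x ∈ O.gr n i, φ n x ∈ O.gr n i
  pull : ∀ n m, ∀ f ∈ O.pull n m, ∀ x, φ m (f x) = f (φ n x)
  tr : ∀ x, O.tr 0 (φ 0 x) = (q : E) ^ O.dim 0 * O.tr 0 x
  form : ∀ i, ∀ x ∈ O.gr 0 i, ∀ y, O.form (φ 0 x) (φ 0 y) = (q : E) ^ i * O.form x y
  conj : ∀ n j, ∀ x ∈ S n j, ∃ y ∈ S n j, φ n x = O.smul n ((q : E) ^ j) y
  fix : ∀ n j, ∀ x ∈ S n j, ∃ m : ℕ, 0 < m ∧ (φ n)^[m] x = O.smul n ((q : E) ^ (j * m)) x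
  weil : ∀ i : ℕ, ∃ Q : Polynomial ℤ, Q.Monic ∧ Squarefree (Q.map (Int.castRingHom ℚ)) ∧
    (∀ y : ℂ, Polynomial.aeval y Q = 0 → ‖y‖ ^ 2 = (q : ℝ) ^ i) ∧
    ∀ x ∈ O.gr 0 i, ∀ l, IsLin O l →
      ∑ m ∈ Finset.range (Q.natDegree + 1), (Q.coeff m : E) * l ((φ 0)^[m] x) = 0

variable {O}

lemma IsFrobenius.isFrob {q : ℕ} {φ : ∀ n, O.H n → O.H n} {S : ∀ n : ℕ, ℕ → Set (O.H n)}
    (h : IsFrobenius O q φ S) (h' : Semisimple O q (φ 0)) : IsFrob O q φ S where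
  q_pos := h.q_pos
  lin := h.lin
  mul := h.mul
  deg := h.deg
  pull := h.pull
  tr := h.tr
  form := h.form
  conj := h.conj
  fix := h.fix
  weil i := by
    obtain ⟨Q, ⟨h1, h2, h3⟩, h4⟩ := h' i
    exact ⟨Q, h1, h4, h2, h3⟩

end Pool.Agent.N204.HR.Raw
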