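import Pool.Agent.N204.HR.Stm
import Pool.Agent.N204.HR.Old
import Pool.Agent.N996.BP.Fin1

/-!
# Positivity of the classes generated by specialised classes and the Frobenius: statements of the parts
-/

set_option linter.unusedSectionVars false

open CategoryTheory AlgebraicGeometry TensorProduct

universe u

namespace Pool.Agent.N204.HR

open Module Matrix
open Pool.Agent.H914 Pool.Agent.H914.VarClass Pool.Agent.H914.VarClass.Obj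
  Pool.Agent.H914.WeilCohomology
open Pool.Agent.Y133.Half (pw pfst psnd wb)
open Pool.Agent.Y121.AH (CW em)
open Pool.Agent.Y121.AHS
open Pool.Agent.N996.BP (kp IsCoordinateMap IsPHS RForm IsPolarisation)
open Pool.Agent.N996.BP.Geo (cc lop tauT Fx)
open Pool.Agent.N204.RD.Raw (Coh IsLin IsLinear InSpan coh ap vzero)
open Pool.Agent.N204.HR.Raw

/-- **Task EC** (from the coefficients `E` to complex coefficients). -/
def S_EC : Prop := ∀ (k : Type u) [Field k] (𝒱 : VarClass k) (ops : CycleOps 𝒱)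
  (T : HodgeTheory ops) (X : 𝒱.Obj) (ψ : RForm T.W X) (_ : IsPolarisation T X ψ)
  (E : Type) [Field E] [Algebra T.W.K E] (q : ℕ)
  (φ : ∀ n, (coh T E ψ).H n → (coh T E ψ).H n) (S : ∀ n : ℕ, ℕ → Set (T.W.H (pw X n)))
  (_ : ∀ n j, ∀ c ∈ S n j, IsHodge T (pw X n) j c)
  (_ : IsFrob (coh T E ψ) q φ (Raw.ext T E S)) (σ : E →+* ℂ),
  ∃ (b : ∀ Y : 𝒱.Obj, HL T.W E Y → (CW (toH T)).H Y)
    (Φ : ∀ n, (CW (toH T)).H (pw X n) →ₐ[(CW (toH T)).K] (CW (toH T)).H (pw X n)),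
    (∀ (Y : 𝒱.Obj) (x y : HL T.W E Y), b Y (x + y) = b Y x + b Y y) ∧
    (∀ (Y : 𝒱.Obj) (c : E) (x : HL T.W E Y), b Y (c • x) = cc (toH T) (σ c) • b Y x) ∧
    (∀ (Y : 𝒱.Obj) (x y : HL T.W E Y), b Y (mulL x y) = b Y x * b Y y) ∧
    (∀ (Y Z : 𝒱.Obj) (f : Y ⟶ Z) (x : HL T.W E Z),
      b Y (mapL f x) = (CW (toH T)).map f (b Z x)) ∧
    (∀ (Y : 𝒱.Obj) (x : HL T.W E Y), (CW (toH T)).tr Y (b Y x) = cc (toH T) (σ (trL x))) ∧
    (∀ (Y : 𝒱.Obj) (i : ℕ) (x : HL T.W E Y), IsDeg i x → b Y x ∈ (CW (toH T)).gr Y i) ∧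
    (∀ (Y : 𝒱.Obj) (c : T.W.H Y), b Y (emL T.W E c) = em T.W ℂ c) ∧
    (∀ Y : 𝒱.Obj, Function.Injective (b Y)) ∧
    FrobC (toH T) X (show LinearMap.BilinForm T.W.K (T.W.H X) from ψ) q Φ S ∧
    ∀ (n : ℕ) (x : HL T.W E (pw X n)), Φ n (b (pw X n) x) = b (pw X n) (φ n x)

/-- The class of a cycle with complex coefficients. -/
noncomputable def clC {k : Type u} [Field k] {𝒱 : VarClass k} {ops : CycleOps 𝒱}
    (T : HodgeTheory ops) (Y : 𝒱.Obj) (D : Y.Cycles) : (CW (toH T)).H Y :=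
  em T.W ℂ (T.W.cl Y D)

/-- **Task HD** (positivity of the classes fixed by `J`). -/
def S_HD : Prop := ∀ (k : Type u) [Field k] (𝒱 : VarClass k) (ops : CycleOps 𝒱)
  (T : HodgeTheory ops) (Y : 𝒱.Obj) (D : Y.Cycles), HodgeRiemann T Y D →
  ∀ (j : ℕ) (x : (CW (toH T)).H Y), x ∈ (CW (toH T)).gr Y (2 * j) → 2 * j ≤ Y.dim →
    Jop (toH T) Y x = x → clC T Y D ^ (Y.dim - 2 * j + 1) * x = 0 → x ≠ 0 →
    ∃ r : ℝ, 0 < r ∧ (-1) ^ j * toC (toH T)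
      ((CW (toH T)).tr Y (clC T Y D ^ (Y.dim - 2 * j) * x * x)) = r

/-- **Task GD** (the degrees of the generated classes). -/
def S_GD : Prop := ∀ (k : Type u) [Field k] (𝒱 : VarClass k) (ops : CycleOps 𝒱)
  (T : HodgeTheory ops) (X : 𝒱.Obj) (ψ : RForm T.W X) (E : Type) [Field E] [Algebra T.W.K E]
  (φ : (coh T E ψ).H 0 → (coh T E ψ).H 0) (S : ∀ n : ℕ, ℕ → Set (T.W.H (pw X n))),
  (∀ n j, ∀ c ∈ S n j, c ∈ T.W.gr (pw X n) (2 * j)) → IsLinear (coh T E ψ) 0 φ →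
  (∀ i, ∀ x ∈ (coh T E ψ).gr 0 i, φ x ∈ (coh T E ψ).gr 0 i) →
  ∀ (n j : ℕ) (x : (coh T E ψ).H n), Gen (coh T E ψ) φ (Raw.ext T E S) n j x →
    x ∈ (coh T E ψ).gr n (2 * j)

/-- **Task KD** (homological and numerical equivalence). -/
def S_KD : Prop := ∀ (k : Type u) [Field k] (𝒱 : VarClass k) (ops : CycleOps 𝒱)
  (T : HodgeTheory ops) (X : 𝒱.Obj) (ψ : RForm T.W X) (E : Type) [Field E] [Algebra T.W.K E]
  (φ : (coh T E ψ).H 0 → (coh T E ψ).H 0) (S : ∀ n : ℕ, ℕ → Set (T.W.H (pw X n)))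
  (_ : E →+* ℂ) (n : ℕ) (D : (pw X n).Cycles), (pw X n).IsCyc 1 D → T.W.cl (pw X n) D ∈ S n 1 →
  (∀ m j, ∀ x, Gen (coh T E ψ) φ (Raw.ext T E S) m j x → x ∈ (coh T E ψ).gr m (2 * j)) →
  (∀ j x, Gen (coh T E ψ) φ (Raw.ext T E S) n j x →
    Positive (coh T E ψ) n (emL T.W E (T.W.cl (pw X n) D)) j x) →
  InverseIn (coh T E ψ) (Raw.ext T E S) n (emL T.W E (T.W.cl (pw X n) D)) →
  ∀ i j, i + j = (coh T E ψ).dim n → ∀ x, Gen (coh T E ψ) φ (Raw.ext T E S) n j x →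
    (∀ y, Gen (coh T E ψ) φ (Raw.ext T E S) n i y →
      (coh T E ψ).tr n ((coh T E ψ).mul n y x) = 0) → x = (coh T E ψ).zero n

end Pool.Agent.N204.HR
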