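import Pool.Agent.N204.HR.Def
import Pool.Agent.N204.HR.Stm2

/-!
# The polarisation given by an ample divisor: the parts
-/

set_option linter.unusedSectionVars false

open CategoryTheory AlgebraicGeometry TensorProduct

universe u

namespace Pool.Agent.N204.HR

open Module
open Pool.Agent.H914 Pool.Agent.H914.VarClass Pool.Agent.H914.VarClass.Obj
  Pool.Agent.H914.WeilCohomology
open Pool.Agent.Y121.AH (em)
open Pool.Agent.Y121.AHS
open Pool.Agent.N996.BP (RForm IsPolarisation)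
open Pool.Agent.N204.RD.Raw (extBilE)

/-- **Task P1** (the hard Lefschetz theorem from the Hodge-Riemann relations). -/
def S_P1 : Prop := ∀ (k : Type u) [Field k] (𝒱 : VarClass k) (ops : CycleOps 𝒱)
  (T : HodgeTheory ops) (Y : 𝒱.Obj) (D : Y.Cycles), Def.HodgeRiemann T Y D →
  (∀ i ≤ Y.dim, ∀ x ∈ T.W.gr Y i, T.W.cl Y D ^ (Y.dim - i) * x = 0 → x = 0) ∧
  ∀ (E : Type) [Field E] [Algebra T.W.K E], ∀ i ≤ Y.dim, ∀ x ∈ (baseW T.W E).gr Y i,
    em T.W E (T.W.cl Y D) ^ (Y.dim - i) * x = 0 → x = 0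

/-- The element `a` can be the `r`-th component in the primitive decomposition of an element of
degree `i`. -/
def IsPr {K V : Type} [Field K] [AddCommGroup V] [Module K V] (gr : ℕ → Submodule K V)
    (l : Module.End K V) (d r i : ℕ) (a : V) : Prop :=
  a = 0 ∨ ∃ j, i = j + 2 * r ∧ j + r ≤ d ∧ a ∈ gr j ∧ (l ^ (d - j + 1)) a = 0

/-- The hard Lefschetz property. -/
structure IsHL {K V : Type} [Field K] [AddCommGroup V] [Module K V] (gr : ℕ → Submodule K V)
    (l : Module.End K V) (d : ℕ) : Prop where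
  int : DirectSum.IsInternal gr
  bot : ∀ i, 2 * d < i → gr i = ⊥
  deg : ∀ i, ∀ x ∈ gr i, l x ∈ gr (i + 2)
  inj : ∀ i ≤ d, ∀ x ∈ gr i, (l ^ (d - i)) x = 0 → x = 0
  rank : ∀ i ≤ d, finrank K (gr i) = finrank K (gr (2 * d - i))

/-- **Task PD** (the primitive decomposition). -/
def S_PD : Prop := ∀ (K V : Type) [Field K] [AddCommGroup V] [Module K V] [Module.Finite K V]
  (gr : ℕ → Submodule K V) (l : Module.End K V) (d : ℕ), IsHL gr l d →
  (∃ c : ℕ → Module.End K V, ∀ i, ∀ x ∈ gr i, (∀ r, IsPr gr l d r i (c r x)) ∧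
    x = ∑ r ∈ Finset.range (d + 1), (l ^ r) (c r x)) ∧
  ∀ i, ∀ a : ℕ → V, (∀ r, IsPr gr l d r i (a r)) →
    ∑ r ∈ Finset.range (d + 1), (l ^ r) (a r) = 0 → ∀ r ≤ d, a r = 0

/-- **Task P2** (the polarisation). -/
def S_P2 : Prop := ∀ (k : Type u) [Field k] (𝒱 : VarClass k) (ops : CycleOps 𝒱)
  (T : HodgeTheory ops) (X : 𝒱.Obj) (D : X.Cycles), Def.HodgeRiemann T X D →
  ∃ ψ : RForm T.W X, IsPolarisation T X ψ ∧
    ∀ (E : Type) [Field E] [Algebra T.W.K E] (q : ℕ) (f : HL T.W E X → HL T.W E X), 0 < q →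
      (∀ x y, f (x + y) = f x + f y) → (∀ (c : E) x, f (c • x) = c • f x) →
      (∀ x y, f (mulL x y) = mulL (f x) (f y)) → (∀ i x, IsDeg i x → IsDeg i (f x)) →
      (∀ x, trL (f x) = (q : E) ^ X.dim * trL x) →
      f (emL T.W E (T.W.cl X D)) = (q : E) • emL T.W E (T.W.cl X D) →
      ∀ i x, IsDeg i x → ∀ y, extBilE E ψ (f x) (f y) = (q : E) ^ i * extBilE E ψ x y

end Pool.Agent.N204.HR
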