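import Pool.Agent.N204.HR.RawThm
import Pool.Agent.N204.HR.Stm4

/-!
# The theorem in terms of the final definitions
-/

set_option linter.unusedSectionVars false

open CategoryTheory AlgebraicGeometry TensorProduct

universe u

namespace Pool.Agent.N204.HR

open Pool.Agent.H914 Pool.Agent.H914.VarClass Pool.Agent.H914.VarClass.Obj
  Pool.Agent.H914.WeilCohomology
open Pool.Agent.Y133.Half (pw)
open Pool.Agent.Y121.AHS
open Pool.Agent.N996.BP (RForm IsPolarisation IsCoordinateMap)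
open Pool.Agent.N204.RD.Raw (extBilE)

variable {k : Type u} [Field k] {𝒱 : VarClass k} {ops : CycleOps 𝒱}

lemma pr_eq' (X : 𝒱.Obj) : ∀ n i : ℕ, Def.pr X n i = N996.BP.pr X n i
  | 0, i => rfl
  | n + 1, i => by
    rw [Def.pr, N996.BP.pr, pr_eq' X n i]

/-- The relations. -/
lemma hodgeRiemann_raw {T : HodgeTheory ops} {Y : 𝒱.Obj} {D : Y.Cycles}
    (h : Def.HodgeRiemann T Y D) : Raw.HodgeRiemann T Y D := by
  refine ⟨h.1, ?_, ?_⟩
  · intro p q x hx
    by_cases hx0 : x = 0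
    · rw [hx0]
      have h1 : N996.BP.conjH T (0 : HL T.W ℂ Y) = 0 := map_zero (TensorProduct.map _ _)
      rw [h1]
      exact Submodule.zero_mem _
    · exact (h.2 p q x hx hx0).2.2.1
  · intro p q i x hpq hi hx hx0 hprim
    exact (h.2 p q x hx hx0).2.2.2 i hpq hi hprim

section

variable {T : HodgeTheory ops} {X : 𝒱.Obj} {E : Type} [Field E] [Algebra T.W.K E]
  (ψ : RForm T.W X)

lemma mem_pull {n m : ℕ} {f : HL T.W E (pw X n) → HL T.W E (pw X m)} :
    f ∈ (Def.coh T E X).pull n m ↔ f ∈ (RD.Raw.coh T E ψ).pull n m := by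
  constructor
  · rintro ⟨g, hg, rfl⟩
    refine ⟨g, fun i hi => ?_, rfl⟩
    obtain ⟨j, hj, h⟩ := hg i hi
    exact ⟨j, hj, by rw [← pr_eq', ← pr_eq', h]⟩
  · rintro ⟨g, hg, rfl⟩
    refine ⟨g, fun i hi => ?_, rfl⟩
    obtain ⟨j, hj, h⟩ := hg i hi
    exact ⟨j, hj, by rw [pr_eq', pr_eq', h]⟩

variable {φ : HL T.W E X → HL T.W E X} {S : ∀ n : ℕ, ℕ → Set (HL T.W E (pw X n))}

lemma gen_to {n j : ℕ} {x : (Def.coh T E X).H n}
    (h : Def.Gen (Def.coh T E X) φ S n j x) :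
    Raw.Gen (RD.Raw.coh T E ψ) φ S n j x := by
  induction h with
  | base hx => exact .base hx
  | add _ _ hx hy => exact .add hx hy
  | smul r _ hx => exact .smul r hx
  | mul _ _ hx hy => exact .mul hx hy
  | pull hf _ hx => exact .pull ((mem_pull ψ).1 hf) hx
  | push hf _ htr hij hx => exact .push ((mem_pull ψ).1 hf) hx htr hij
  | frob hp hq hsp ht hpq _ hx =>
    exact .frob ((mem_pull ψ).1 hp) ((mem_pull ψ).1 hq) hsp ht hpq hx

lemma gen_of {n j : ℕ} {x : (RD.Raw.coh T E ψ).H n}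
    (h : Raw.Gen (RD.Raw.coh T E ψ) φ S n j x) :
    Def.Gen (Def.coh T E X) φ S n j x := by
  induction h with
  | base hx => exact .base hx
  | add _ _ hx hy => exact .add hx hy
  | smul r _ hx => exact .smul r hx
  | mul _ _ hx hy => exact .mul hx hy
  | pull hf _ hx => exact .pull ((mem_pull ψ).2 hf) hx
  | push hf _ htr hij hx => exact .push ((mem_pull ψ).2 hf) hx htr hij
  | frob hp hq hsp ht hpq _ hx =>
    exact .frob ((mem_pull ψ).2 hp) ((mem_pull ψ).2 hq) hsp ht hpq hx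

end

section Main

variable {T : HodgeTheory ops} {X : 𝒱.Obj} {E : Type} [Field E] [Algebra T.W.K E]
  {S : ∀ n : ℕ, ℕ → Set ((Def.coh T E X).H n)} {q : ℕ}
  {φ : ∀ n, (Def.coh T E X).H n → (Def.coh T E X).H n}

/-- The rational classes. -/
def rat (S : ∀ n : ℕ, ℕ → Set ((Def.coh T E X).H n)) (n j : ℕ) : Set (T.W.H (pw X n)) :=
  {c | IsHodge T (pw X n) j c ∧ emL T.W E c ∈ S n j}

lemma ext_rat (h : ∀ n j, S n j ⊆ (Def.coh T E X).hodge n j) :
    Raw.ext T E (rat S) = S := by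
  funext n j
  ext x
  constructor
  · rintro ⟨c, hc, rfl⟩
    exact hc.2
  · intro hx
    obtain ⟨c, hc, rfl⟩ := h n j hx
    exact ⟨c, ⟨hc, hx⟩, rfl⟩

/-- The Frobenius system. -/
lemma isFrobenius_raw (hP : S_P2.{u}) (h : Def.IsFrobenius (Def.coh T E X) q φ S) :
    ∃ ψ : RForm T.W X, IsPolarisation T X ψ ∧
      Raw.IsFrobenius (RD.Raw.coh T E ψ) q φ (Raw.ext T E (rat S)) := by
  obtain ⟨L, hL, ⟨D, hD, hLD⟩, hφL⟩ := h.polar
  obtain ⟨ψ, hψ, hform⟩ := hP k 𝒱 ops T X D hD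
  refine ⟨ψ, hψ, ?_⟩
  rw [ext_rat h.hodge]
  exact {
    q_pos := h.q_pos
    lin := h.lin
    mul := h.mul
    deg := h.deg
    pull := fun n m f hf x => h.pull n m f ((mem_pull ψ).2 hf) x
    tr := h.tr
    form := hform E q (φ 0) h.q_pos (h.lin 0).1 (h.lin 0).2 (h.mul 0) (h.deg 0) h.tr (by
      rw [hLD] at hφL
      exact hφL)
    conj := h.conj
    fix := h.fix }

/-- **The theorem.** -/
theorem final (hP : S_P2.{u}) (hF2 : S_F2.{u}) (hF3 : S_F3.{u}) (hF4 : S_F4.{u}) (hF5 : S_F5.{u})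
    (hF6 : S_F6) (hF7 : S_F7) (hE : Nonempty (E →+* ℂ))
    (h : Def.IsFrobenius (Def.coh T E X) q φ S)
    (hw : ∀ i, ∃ Q, Def.Weil (Def.coh T E X) q (φ 0) i Q) :
    (Def.Semisimple (Def.coh T E X) q (φ 0) → ∀ n, ∀ L ∈ (Def.coh T E X).polar n, L ∈ S n 1 →
      Def.HodgeType (Def.coh T E X) (φ 0) S n L) ∧
    (∀ n, ∀ L ∈ (Def.coh T E X).polar n, L ∈ S n 1 → Def.InverseIn (Def.coh T E X) S n L →
      Def.HodgeType (Def.coh T E X) (φ 0) S n L → Def.HomNum (Def.coh T E X) (φ 0) S n) ∧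
    (Def.HomNum (Def.coh T E X) (φ 0) S 1 → Def.Semisimple (Def.coh T E X) q (φ 0)) := by
  obtain ⟨ψ, hψ, hF⟩ := isFrobenius_raw hP h
  have hrat : ∀ n j, ∀ c ∈ rat S n j, IsHodge T (pw X n) j c := fun n j c hc => hc.1
  have hext : Raw.ext T E (rat S) = S := ext_rat h.hodge
  refine ⟨?_, ?_, ?_⟩
  · rintro hss n L ⟨D, hD, rfl⟩ hLS j x hx hj hprim hx0 σ
    have hx' : Raw.Gen (RD.Raw.coh T E ψ) (φ 0) (Raw.ext T E (rat S)) n j x := by
      rw [hext]
      exact gen_to ψ hx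
    exact positive hψ hrat hF hss n D (hodgeRiemann_raw hD) ⟨T.cyc (pw X n) 1 D hD.1, hLS⟩ j x hx'
      hj hprim hx0 σ
  · rintro n L ⟨D, hD, rfl⟩ hLS ⟨p, hp, p', hp', hdim, hI⟩ hH
    have hI' : Raw.InverseIn (RD.Raw.coh T E ψ) (Raw.ext T E (rat S)) n
        (emL T.W E (RD.Raw.ap (T.W.cl (pw X n)) D)) := by
      rw [hext]
      exact ⟨p, (mem_pull ψ).1 hp, p', (mem_pull ψ).1 hp', hdim, hI⟩
    have hN := homNum hE hrat hF n D (hodgeRiemann_raw hD) ⟨T.cyc (pw X n) 1 D hD.1, hLS⟩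
      (fun j x hx => by
        rw [hext] at hx
        exact fun hj hprim hx0 σ => hH j x (gen_of ψ hx) hj hprim hx0 σ) hI'
    intro i j hij x hx hxy
    refine hN i j hij x (by rw [hext]; exact gen_to ψ hx) fun y hy => hxy y ?_
    rw [hext] at hy
    exact gen_of ψ hy
  · intro hN
    obtain ⟨u, hu, hu1⟩ := h.unit
    refine conv N505.HR.gd hF2 hF3 hF4 hF5 hF6 hF7 hF (fun n j c hc => (hrat n j c hc).1) hw ?_ ?_
    · rw [hext]
      have h1 : u = emL T.W E (1 : T.W.H X) := by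
        have h2 : mulL (show HL T.W E X from u) (emL T.W E (1 : T.W.H X)) =
          emL T.W E (1 : T.W.H X) := hu1 _
        have h3 : mulL (show HL T.W E X from u) (emL T.W E (1 : T.W.H X)) = u :=
          mul_one (M := (baseW T.W E).H X) u
        exact h3.symm.trans h2
      have h4 : Raw.Gen (RD.Raw.coh T E ψ) (φ 0) S 0 0 u := .base hu
      rw [h1] at h4
      exact h4
    · rw [hext]
      intro i j hij x hx hxy
      exact hN i j hij x (gen_of ψ hx) fun y hy => hxy y (gen_to ψ hy)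

end Main

end Pool.Agent.N204.HR
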