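import Pool.Agent.N204.HR.Stm

/-!
# The conjugated real structure
-/

set_option linter.unusedSectionVars false

open CategoryTheory AlgebraicGeometry TensorProduct

universe u

namespace Pool.Agent.N204.HR

open Module Matrix
open Pool.Agent.H914 Pool.Agent.H914.VarClass Pool.Agent.H914.VarClass.Obj
  Pool.Agent.H914.WeilCohomology
open Pool.Agent.Y133.Half (pw pfst psnd wb)
open Pool.Agent.Y121.AH (HodgeTheory CW em IsHodge)
open Pool.Agent.N996.BP (kp IsCoordinateMap IsPHS kp_mul kp_one)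
open Pool.Agent.N996.BP.Geo (cc lop tauT Fx)
open Pool.Agent.N211.BT (isCoord_fst isCoord_snd)

variable {k : Type u} [Field k] {𝒱 : VarClass k} {ops : CycleOps 𝒱}

section Core

variable {T : HodgeTheory ops} {X : 𝒱.Obj} {ψ : LinearMap.BilinForm T.W.K (T.W.H X)} {d : ℕ}
  {q : ℝ} {Φ : ∀ n, (CW T).H (pw X n) →ₐ[(CW T).K] (CW T).H (pw X n)}
  {S : ∀ n : ℕ, ℕ → Set (T.W.H (pw X n))}

/-- The conjugating automorphisms. -/
structure Conjug (T : HodgeTheory ops) (X : 𝒱.Obj)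
    (Φ : ∀ n, (CW T).H (pw X n) →ₐ[(CW T).K] (CW T).H (pw X n))
    (S : ∀ n : ℕ, ℕ → Set (T.W.H (pw X n)))
    (G : ∀ n, (CW T).H (pw X n) ≃ₐ[(CW T).K] (CW T).H (pw X n)) : Prop where
  gr : ∀ n i, ∀ x ∈ (CW T).gr (pw X n) i, G n x ∈ (CW T).gr (pw X n) i
  tr : ∀ n x, (CW T).tr (pw X n) (G n x) = (CW T).tr (pw X n) x
  map : ∀ (n m : ℕ) (f : pw X m ⟶ pw X n), IsCoordinateMap f → ∀ x,
    G m ((CW T).map f x) = (CW T).map f (G n x)
  comm : ∀ x : (CW T).H (pw X 0), Jop T (pw X 0) (G 0 (Φ 0 ((G 0).symm x))) =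
    G 0 (Φ 0 ((G 0).symm (Jop T (pw X 0) x)))
  fix : ∀ n j, ∀ c ∈ S n j, G n (em T.W ℂ c) = em T.W ℂ c

lemma gr_symm {W : WeilCohomology.{u, 0} ops} {Y : 𝒱.Obj} (g : W.H Y ≃ₐ[W.K] W.H Y)
    (h : ∀ i, ∀ x ∈ W.gr Y i, g x ∈ W.gr Y i) (i : ℕ) (x : W.H Y) (hx : x ∈ W.gr Y i) :
    g.symm x ∈ W.gr Y i := by
  have h1 : ∀ y : W.H Y, g (proj (W.isInternal Y) i y) = proj (W.isInternal Y) i (g y) := by
    intro y
    refine gr_induction (W.isInternal Y)
      (p := fun y => g (proj (W.isInternal Y) i y) = proj (W.isInternal Y) i (g y)) ?_ ?_ y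
    · intro j c hc
      by_cases hij : j = i
      · subst hij
        rw [proj_same _ hc, proj_same _ (h j c hc)]
      · rw [proj_ne _ hc hij, proj_ne _ (h j c hc) hij, map_zero]
    · intro a b ha hb
      rw [map_add, map_add, ha, hb, map_add, map_add]
  have h2 := h1 (g.symm x)
  rw [g.apply_symm_apply, proj_same _ hx] at h2
  have h3 := congrArg g.symm h2
  rw [g.symm_apply_apply] at h3
  rw [← h3]
  exact proj_mem _ _ _

/-- **The conjugation.** -/
theorem exists_conjug (hLV : S_LV) (hTF : S_TF.{u}) (hWC : S_WC.{u}) (hJF : S_JF.{u})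
    (hNS : S_NS.{u}) (hψ : IsPHS (tauT T) (Fx T X) ψ d) (h : FrobC T X ψ q Φ S) :
    ∃ G, Conjug T X Φ S G := by
  obtain ⟨s, hsΦ, hsmap, hstr, hsψ, hsc, hsf, κ, _, b, lam, hb⟩ :=
    hNS k 𝒱 ops T X ψ d q Φ S hψ h
  obtain ⟨Jadd, Jsmul, Jmul, Jmap, Jtr, Jgr, Jsurj, Jhodge, Jψ⟩ := hJF k 𝒱 ops T
  obtain ⟨Jψ1, Jψ2⟩ := Jψ X ψ d hψ
  obtain ⟨ι, _, _, e, g, hggr, hgtr, hgJ, hgood⟩ :=
    @hLV ((CW T).H X) ((CW T).ring X) ((CW T).algebra X) ((CW T).finite X)
      (fun i => (CW T).gr X i) ((CW T).tr X)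
      (ψ.baseChange ℂ) (Jop T X) (s 0) ((CW T).isInternal X) (Jadd X) (Jsmul X) (Jmul X) (Jgr X)
      (Jtr X) Jψ1 Jψ2 (fun i x hx => (hsΦ 0 i x hx).2) hstr hsψ ⟨κ, inferInstance, b, lam, hb⟩
  obtain ⟨g', hg'⟩ : ∃ g' : (CW T).H X ≃ₐ[(CW T).K] (CW T).H X, g' = g := ⟨g, rfl⟩
  have hgJ' : ∀ x : (CW T).H X,
      Jop T X (g' (s 0 (g'.symm x))) = g' (s 0 (g'.symm (Jop T X x))) := by
    rw [hg']
    exact hgJ
  obtain ⟨G, hG0, hGgr, hGtr, hGmap⟩ := hTF k 𝒱 ops (CW T) X g'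
    (by rw [hg']; exact hggr) (by rw [hg']; exact hgtr)
  -- coordinates
  obtain ⟨e', he'⟩ : ∃ e' : Basis ι (CW T).K ((CW T).H X), e' = e := ⟨e, rfl⟩
  obtain ⟨M, hM⟩ : ∃ M : ((CW T).H X → (CW T).H X) → Matrix ι ι ℂ,
    M = fun u => mat (K := (CW T).K) e' u := ⟨_, rfl⟩
  obtain ⟨co, hco⟩ : ∃ co : ∀ n, (CW T).H (pw X n) → ((Fin (n + 1) → ι) → ℂ),
    co = fun n x => (wb (W := CW T) e' n).equivFun x := ⟨_, rfl⟩
  have hgood' : ∀ (κ : Type) [Fintype κ] [DecidableEq κ] (a : (κ → ι) → ℂ),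
      Good (M (Jop T X)) (M (s 0)) κ a → kp κ (M g') *ᵥ a = a := by
    rw [hM, he', hg']
    exact hgood
  have hwJ : ∀ n x, co n (Jop T (pw X n) x) =
      kp (Fin (n + 1)) (M (Jop T X)) *ᵥ star (co n x) := by
    intro n x
    rw [hM, hco]
    exact hWC k 𝒱 ops (CW T) X (starRingEnd ℂ) (fun n => Jop T (pw X n)) (fun n => Jadd _)
      (fun n => Jsmul _) (fun n => Jmul _) (fun n x => Jmap _ _ _ x) (fun n x => Jmap _ _ _ x)
      ι e' n x
  have hws : ∀ n x, co n (s n x) = kp (Fin (n + 1)) (M (s 0)) *ᵥ co n x := by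
    intro n x
    rw [hM, hco]
    exact hWC k 𝒱 ops (CW T) X (RingHom.id _) (fun n => s n) (fun n x y => map_add _ x y)
      (fun n c x => map_smul _ c x) (fun n x y => map_mul _ x y)
      (fun n x => hsmap n (n + 1) _ (isCoord_fst n) x)
      (fun n x => hsmap 0 (n + 1) _ (isCoord_snd n) x) ι e' n x
  have hwG : ∀ n x, co n (G n x) = kp (Fin (n + 1)) (M g') *ᵥ co n x := by
    intro n x
    have hmG : M (G 0) = M g' := by
      rw [hM]
      ext i j
      exact congrArg (fun z => e'.repr z i) (hG0 (e' j))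
    rw [← hmG, hM, hco]
    exact hWC k 𝒱 ops (CW T) X (RingHom.id _) (fun n => G n) (fun n x y => map_add _ x y)
      (fun n c x => map_smul _ c x) (fun n x y => map_mul _ x y)
      (fun n x => hGmap n (n + 1) _ (isCoord_fst n) x)
      (fun n x => hGmap 0 (n + 1) _ (isCoord_snd n) x) ι e' n x
  refine ⟨G, hGgr, hGtr, hGmap, ?_, ?_⟩
  · -- commutation
    have hsymm : ∀ x : (CW T).H X, (G 0).symm x = g'.symm x := by
      intro x
      apply (G 0).injective
      rw [(G 0).apply_symm_apply]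
      exact ((hG0 (g'.symm x)).trans (g'.apply_symm_apply x)).symm
    intro x
    refine gr_induction ((CW T).isInternal X) (p := fun x : (CW T).H X =>
      Jop T X (G 0 (Φ 0 ((G 0).symm x))) = G 0 (Φ 0 ((G 0).symm (Jop T X x)))) ?_ ?_ x
    · intro i x hx
      have h1 : (G 0).symm x ∈ (CW T).gr X i := gr_symm (G 0) (hGgr 0) i x hx
      have h2 : (G 0).symm (Jop T X x) ∈ (CW T).gr X i :=
        gr_symm (G 0) (hGgr 0) i _ (Jgr X i x hx)
      have e1 := (hsΦ 0 i _ h1).1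
      have e2 := (hsΦ 0 i _ h2).1
      rw [e1, e2, map_smul, map_smul]
      refine (Jsmul X _ _).trans ?_
      have h3 : starC T (cc T (((Real.sqrt q : ℝ) : ℂ) ^ i)) =
          cc T (((Real.sqrt q : ℝ) : ℂ) ^ i) := by
        change star (((Real.sqrt q : ℝ) : ℂ) ^ i) = _
        rw [star_pow]
        congr 1
        exact Complex.conj_ofReal _
      rw [h3]
      congr 1
      have h4 := hgJ' x
      rw [← hsymm, ← hsymm, ← hG0, ← hG0] at h4
      exact h4
    · intro x y hx hy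
      have e1 : G 0 (Φ 0 ((G 0).symm (x + y))) =
          G 0 (Φ 0 ((G 0).symm x)) + G 0 (Φ 0 ((G 0).symm y)) := by
        rw [← map_add, ← map_add, ← map_add]
        rfl
      have e2 : G 0 (Φ 0 ((G 0).symm (Jop T X (x + y)))) =
          G 0 (Φ 0 ((G 0).symm (Jop T X x))) + G 0 (Φ 0 ((G 0).symm (Jop T X y))) := by
        rw [Jadd, ← map_add, ← map_add, ← map_add]
        rfl
      rw [e1, e2, ← hx, ← hy]
      exact Jadd X _ _
  · -- the classes
    intro n j c hc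
    have hit : ∀ (r : ℕ) (x : (CW T).H (pw X n)), co n ((s n)^[r] x) =
        kp (Fin (n + 1)) (M (s 0) ^ r) *ᵥ co n x := by
      intro r
      induction r with
      | zero =>
        intro x
        rw [pow_zero, kp_one, Matrix.one_mulVec]
        rfl
      | succ r ih =>
        intro x
        rw [Function.iterate_succ_apply', hws, ih, Matrix.mulVec_mulVec, ← kp_mul, pow_succ']
    have horb : ∀ r : ℕ, ∃ c' ∈ S n j, (s n)^[r] (em T.W ℂ c) = em T.W ℂ c' := by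
      intro r
      induction r with
      | zero => exact ⟨c, hc, rfl⟩
      | succ r ih =>
        obtain ⟨c', hc', h1⟩ := ih
        obtain ⟨c'', hc'', h2⟩ := hsc n j c' hc'
        exact ⟨c'', hc'', by rw [Function.iterate_succ_apply', h1, h2]⟩
    have hg : Good (M (Jop T X)) (M (s 0)) (Fin (n + 1)) (co n (em T.W ℂ c)) := by
      constructor
      · intro r
        obtain ⟨c', hc', h1⟩ := horb r
        have h2 := hwJ n ((s n)^[r] (em T.W ℂ c))
        have h3 : Jop T (pw X n) ((s n)^[r] (em T.W ℂ c)) = (s n)^[r] (em T.W ℂ c) := by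
          rw [h1]
          exact Jhodge _ j c' (h.hodge n j c' hc')
        rw [h3, hit] at h2
        exact h2.symm
      · obtain ⟨m, hm, h1⟩ := hsf n j c hc
        refine ⟨m, hm, ?_⟩
        have h2 := hit m (em T.W ℂ c)
        rw [h1] at h2
        exact h2.symm
    have h1 := hgood' (Fin (n + 1)) _ hg
    rw [← hwG] at h1
    rw [hco] at h1
    exact (wb (W := CW T) e' n).equivFun.injective h1

end Core

end Pool.Agent.N204.HR
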