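import Pool.Agent.N204.HR.Asm1
import Pool.Agent.N204.HR.Stm2
import Pool.Agent.N211.BT.TG2

/-!
# The generated classes are fixed by the conjugated real structure
-/

set_option linter.unusedSectionVars false

open CategoryTheory AlgebraicGeometry TensorProduct

universe u

namespace Pool.Agent.N204.HR

open Module Matrix
open Pool.Agent.H914 Pool.Agent.H914.VarClass Pool.Agent.H914.VarClass.Obj
  Pool.Agent.H914.WeilCohomology
open Pool.Agent.Y133.Half (pw pfst psnd wb)
open Pool.Agent.Y121.AH (CW em)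
open Pool.Agent.Y121.AHS
open Pool.Agent.N996.BP (kp IsCoordinateMap IsPHS RForm IsPolarisation)
open Pool.Agent.N996.BP.Geo (cc lop tauT Fx)
open Pool.Agent.N204.RD.Raw (Coh IsLin IsLinear InSpan IsSub coh ap vzero vadd vsmul)
open Pool.Agent.N204.HR.Raw
open Pool.Agent.N211.BT (emL_add emL_smul bL bL_apply nondegE mulB mapB)

variable {k : Type u} [Field k] {𝒱 : VarClass k} {ops : CycleOps 𝒱}

/-- The properties of the maps from the coefficients `E` to complex coefficients. -/
structure BD (T : HodgeTheory ops) {E : Type} [Field E] [Algebra T.W.K E] (σ : E →+* ℂ)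
    (b : ∀ Y : 𝒱.Obj, HL T.W E Y → (CW (toH T)).H Y) : Prop where
  add : ∀ (Y : 𝒱.Obj) (x y : HL T.W E Y), b Y (x + y) = b Y x + b Y y
  smul : ∀ (Y : 𝒱.Obj) (c : E) (x : HL T.W E Y), b Y (c • x) = cc (toH T) (σ c) • b Y x
  mul : ∀ (Y : 𝒱.Obj) (x y : HL T.W E Y), b Y (mulL x y) = b Y x * b Y y
  map : ∀ (Y Z : 𝒱.Obj) (f : Y ⟶ Z) (x : HL T.W E Z),
    b Y (mapL f x) = (CW (toH T)).map f (b Z x)
  tr : ∀ (Y : 𝒱.Obj) (x : HL T.W E Y), (CW (toH T)).tr Y (b Y x) = cc (toH T) (σ (trL x))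
  gr : ∀ (Y : 𝒱.Obj) (i : ℕ) (x : HL T.W E Y), IsDeg i x → b Y x ∈ (CW (toH T)).gr Y i
  emb : ∀ (Y : 𝒱.Obj) (c : T.W.H Y), b Y (emL T.W E c) = em T.W ℂ c
  inj : ∀ Y : 𝒱.Obj, Function.Injective (b Y)

section

variable {T : HodgeTheory ops} {E : Type} [Field E] [Algebra T.W.K E] {σ : E →+* ℂ}
  {b : ∀ Y : 𝒱.Obj, HL T.W E Y → (CW (toH T)).H Y}

lemma BD.zero (hb : BD T σ b) (Y : 𝒱.Obj) : b Y 0 = 0 := by
  have h := hb.add Y 0 0
  rw [add_zero] at h
  exact left_eq_add.1 h

lemma BD.sum (hb : BD T σ b) (Y : 𝒱.Obj) {α : Type} (s : Finset α) (f : α → HL T.W E Y) :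
    b Y (∑ i ∈ s, f i) = ∑ i ∈ s, b Y (f i) := by
  classical
  induction s using Finset.induction_on with
  | empty => rw [Finset.sum_empty, Finset.sum_empty, hb.zero]
  | insert a s ha ih => rw [Finset.sum_insert ha, Finset.sum_insert ha, hb.add, ih]

/-- The images span. -/
lemma BD.ind (hb : BD T σ b) (Y : 𝒱.Obj) {P : (CW (toH T)).H Y → Prop}
    (h : ∀ x : HL T.W E Y, P (b Y x)) (hadd : ∀ x y, P x → P y → P (x + y))
    (hsm : ∀ (c : (CW (toH T)).K) x, P x → P (c • x)) (x : (CW (toH T)).H Y) : P x := by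
  have h0 : P 0 := by
    have := h 0
    rwa [hb.zero] at this
  have key : ∀ x : ℂ ⊗[T.W.K] T.W.H Y, P x := by
    intro x
    induction x using TensorProduct.induction_on with
    | zero => exact h0
    | add x y hx hy => exact hadd x y hx hy
    | tmul z c =>
      have h1 : (z ⊗ₜ[T.W.K] c : ℂ ⊗[T.W.K] T.W.H Y) = z • ((1 : ℂ) ⊗ₜ[T.W.K] c) := by
        rw [TensorProduct.smul_tmul', smul_eq_mul, mul_one]
      rw [h1]
      have h2 := h (emL T.W E c)
      rw [hb.emb] at h2
      exact hsm (show (CW (toH T)).K from z) _ h2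
  exact key x

/-- The extension of a linear map. -/
lemma BD.lin (hb : BD T σ b) (Y : 𝒱.Obj) (t : HL T.W E Y → HL T.W E Y)
    (hadd : ∀ x y, t (x + y) = t x + t y) (hsm : ∀ (c : E) x, t (c • x) = c • t x) :
    ∃ tc : (CW (toH T)).H Y →ₗ[(CW (toH T)).K] (CW (toH T)).H Y, ∀ x, tc (b Y x) = b Y (t x) := by
  obtain ⟨ε, -⟩ : ∃ ε : Basis (Fin (finrank T.W.K (T.W.H Y))) T.W.K (T.W.H Y), True :=
    ⟨Module.finBasis T.W.K (T.W.H Y), trivial⟩
  obtain ⟨B, hB⟩ : ∃ B : Basis (Fin (finrank T.W.K (T.W.H Y))) (CW (toH T)).K ((CW (toH T)).H Y),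
      ∀ i, B i = em T.W ℂ (ε i) :=
    ⟨(ε.baseChange ℂ : Basis _ ℂ (ℂ ⊗[T.W.K] T.W.H Y)), fun i => Basis.baseChange_apply ℂ ε i⟩
  refine ⟨B.constr (CW (toH T)).K fun i => b Y (t (emL T.W E (ε i))), fun x => ?_⟩
  have h0 : t 0 = 0 := by
    have h := hadd 0 0
    rw [add_zero] at h
    exact left_eq_add.1 h
  have hts : ∀ (s : Finset (Fin (finrank T.W.K (T.W.H Y)))) (f : _ → HL T.W E Y),
      t (∑ i ∈ s, f i) = ∑ i ∈ s, t (f i) := by
    intro s f
    classical
    induction s using Finset.induction_on with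
    | empty => rw [Finset.sum_empty, Finset.sum_empty, h0]
    | insert a s ha ih => rw [Finset.sum_insert ha, Finset.sum_insert ha, hadd, ih]
  have h1 : x = ∑ i, (bL E ε).repr x i • emL T.W E (ε i) := by
    conv_lhs => rw [← (bL E ε).sum_repr x]
    exact Finset.sum_congr rfl fun i _ => by rw [bL_apply]
  rw [h1, hb.sum, hts, hb.sum, map_sum]
  refine Finset.sum_congr rfl fun i _ => ?_
  rw [hb.smul, hsm, hb.smul, map_smul, hb.emb, ← hB, Basis.constr_basis]

end

section Closure

variable {T : HodgeTheory ops} {X : 𝒱.Obj} {ψ : RForm T.W X} {E : Type} [Field E]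
  [Algebra T.W.K E] {σ : E →+* ℂ} {b : ∀ Y : 𝒱.Obj, HL T.W E Y → (CW (toH T)).H Y}
  {Φ : ∀ n, (CW (toH T)).H (pw X n) →ₐ[(CW (toH T)).K] (CW (toH T)).H (pw X n)}
  {S : ∀ n : ℕ, ℕ → Set (T.W.H (pw X n))}
  {G : ∀ n, (CW (toH T)).H (pw X n) ≃ₐ[(CW (toH T)).K] (CW (toH T)).H (pw X n)}
  {φ : ∀ n, (coh T E ψ).H n → (coh T E ψ).H n}

/-- The fixed classes. -/
def Fxd (G : ∀ n, (CW (toH T)).H (pw X n) ≃ₐ[(CW (toH T)).K] (CW (toH T)).H (pw X n)) (n : ℕ)
    (x : (CW (toH T)).H (pw X n)) : Prop := Jop (toH T) (pw X n) (G n x) = G n x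

/-- **The generated classes are fixed.** -/
theorem gen_fxd (hJF : S_JF.{u}) (hG : Conjug (toH T) X Φ S G) (hb : BD T σ b)
    (hΦ : ∀ (n : ℕ) (x : HL T.W E (pw X n)), Φ n (b (pw X n) x) = b (pw X n) (φ n x))
    (hS : ∀ n j, ∀ c ∈ S n j, IsHodge T (pw X n) j c) {n j : ℕ} {x : (coh T E ψ).H n}
    (hx : Gen (coh T E ψ) (φ 0) (Raw.ext T E S) n j x) : Fxd G n (b (pw X n) x) := by
  obtain ⟨Jadd, Jsmul, Jmul, Jmap, Jtr, Jgr, Jsurj, Jhodge, -⟩ := hJF k 𝒱 ops (toH T)
  have hadd : ∀ (n : ℕ) (x y : (CW (toH T)).H (pw X n)), Fxd G n x → Fxd G n y →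
      Fxd G n (x + y) := by
    intro n x y hx hy
    rw [Fxd, map_add, Jadd, hx, hy]
  induction hx with
  | @base n j x h =>
    obtain ⟨c, hc, rfl⟩ := h
    have h1 : G n (b (pw X n) (emL T.W E c)) = em T.W ℂ c := by
      rw [hb.emb]
      exact hG.fix n j c hc
    rw [Fxd, h1]
    exact Jhodge _ j c (hS n j c hc)
  | @add n j x y _ _ ihx ihy =>
    have h1 : b (pw X n) ((coh T E ψ).add n x y) = b (pw X n) x + b (pw X n) y := hb.add _ x y
    rw [h1]
    exact hadd n _ _ ihx ihy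
  | @smul n j x r _ ih =>
    have h1 : b (pw X n) ((coh T E ψ).smul n r x) = cc (toH T) (r : ℂ) • b (pw X n) x := by
      refine (hb.smul _ (r : E) x).trans ?_
      rw [map_ratCast]
    rw [h1, Fxd, map_smul, Jsmul, ih]
    congr 1
    change star (r : ℂ) = (r : ℂ)
    exact map_ratCast (starRingEnd ℂ) r
  | @mul n i j x y _ _ ihx ihy =>
    have h1 : b (pw X n) ((coh T E ψ).mul n x y) = b (pw X n) x * b (pw X n) y := hb.mul _ x y
    rw [h1, Fxd, map_mul, Jmul, ihx, ihy]
  | @pull n m j x f hf _ ih =>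
    obtain ⟨f, hf, rfl⟩ := hf
    have h1 := hb.map _ _ f x
    rw [h1, Fxd, hG.map n m f hf, Jmap, ih]
  | @push n m i j x y f hf _ htr _ ih =>
    obtain ⟨f, hf, rfl⟩ := hf
    -- the adjunction with complex coefficients
    have h1 : ∀ z : (CW (toH T)).H (pw X n), (CW (toH T)).tr (pw X n) (z * b (pw X n) y) =
        (CW (toH T)).tr (pw X m) ((CW (toH T)).map f z * b (pw X m) x) := by
      intro z
      refine hb.ind (pw X n) (P := fun z => (CW (toH T)).tr (pw X n) (z * b (pw X n) y) =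
        (CW (toH T)).tr (pw X m) ((CW (toH T)).map f z * b (pw X m) x)) ?_ ?_ ?_ z
      · intro z
        rw [← hb.mul, hb.tr, ← hb.map, ← hb.mul, hb.tr]
        congr 2
        exact htr z
      · intro z z' hz hz'
        rw [add_mul, map_add, map_add, add_mul, map_add, hz, hz']
      · intro c z hz
        rw [smul_mul_assoc, map_smul, map_smul, smul_mul_assoc, map_smul, hz]
    -- after the conjugation
    have h2 : ∀ z : (CW (toH T)).H (pw X n),
        (CW (toH T)).tr (pw X n) (z * G n (b (pw X n) y)) =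
        (CW (toH T)).tr (pw X m) ((CW (toH T)).map f z * G m (b (pw X m) x)) := by
      intro z
      have h3 := h1 ((G n).symm z)
      rw [← hG.tr, ← hG.tr m, map_mul (G n), map_mul (G m), (G n).apply_symm_apply,
        hG.map n m f hf, (G n).apply_symm_apply] at h3
      exact h3
    rw [Fxd, ← sub_eq_zero]
    apply nondeg_right
    intro z
    obtain ⟨w, rfl⟩ := Jsurj (pw X n) z
    rw [mul_sub, map_sub, sub_eq_zero, ← Jmul, Jtr, h2, ← Jtr, Jmul, Jmap, ih, h2]
  | @frob n j x p q t hp hq hsp ht hpq _ ih =>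
    obtain ⟨p, hp, rfl⟩ := hp
    obtain ⟨q, hq, rfl⟩ := hq
    obtain ⟨tc, htc⟩ := hb.lin (pw X (n + 1)) t ht.1 ht.2
    -- the action of the extension on the products
    have h1 : ∀ (a : (CW (toH T)).H (pw X n)) (c : (CW (toH T)).H (pw X 0)),
        tc ((CW (toH T)).map p a * (CW (toH T)).map q c) =
          (CW (toH T)).map p a * (CW (toH T)).map q (Φ 0 c) := by
      intro a
      refine hb.ind (pw X n) (P := fun a => ∀ c : (CW (toH T)).H (pw X 0),
        tc ((CW (toH T)).map p a * (CW (toH T)).map q c) =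
          (CW (toH T)).map p a * (CW (toH T)).map q (Φ 0 c)) ?_ ?_ ?_ a
      · intro a c
        refine hb.ind (pw X 0) (P := fun c =>
          tc ((CW (toH T)).map p (b (pw X n) a) * (CW (toH T)).map q c) =
            (CW (toH T)).map p (b (pw X n) a) * (CW (toH T)).map q (Φ 0 c)) ?_ ?_ ?_ c
        · intro c
          rw [← hb.map, ← hb.map, ← hb.mul, htc, hΦ, ← hb.map, ← hb.mul]
          congr 1
          exact hpq a c
        · intro c c' hc hc'
          rw [map_add, mul_add, map_add, hc, hc', map_add, map_add, mul_add]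
        · intro l c hc
          rw [map_smul, mul_smul_comm, map_smul, hc, map_smul, map_smul, mul_smul_comm]
      · intro a a' ha ha' c
        rw [map_add, add_mul, map_add, ha, ha', add_mul]
      · intro l a ha c
        rw [map_smul, smul_mul_assoc, map_smul, ha, smul_mul_assoc]
    -- the conjugated operators
    have hcomm : ∀ c : (CW (toH T)).H (pw X 0),
        (G 0).symm (Jop (toH T) (pw X 0) (G 0 (Φ 0 c))) =
          Φ 0 ((G 0).symm (Jop (toH T) (pw X 0) (G 0 c))) := by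
      intro c
      have h2 := hG.comm (G 0 c)
      rw [(G 0).symm_apply_apply] at h2
      rw [h2, (G 0).symm_apply_apply]
    have hJp : ∀ (n m : ℕ) (f : pw X m ⟶ pw X n), IsCoordinateMap f → ∀ a,
        (G m).symm (Jop (toH T) (pw X m) (G m ((CW (toH T)).map f a))) =
          (CW (toH T)).map f ((G n).symm (Jop (toH T) (pw X n) (G n a))) := by
      intro n m f hf a
      apply (G m).injective
      rw [(G m).apply_symm_apply, hG.map n m f hf, hG.map n m f hf, (G n).apply_symm_apply, Jmap]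
    have key : ∀ z : (CW (toH T)).H (pw X (n + 1)),
        (G (n + 1)).symm (Jop (toH T) (pw X (n + 1)) (G (n + 1) (tc z))) =
          tc ((G (n + 1)).symm (Jop (toH T) (pw X (n + 1)) (G (n + 1) z))) := by
      -- it holds for the products
      have h3 : ∀ (a : (CW (toH T)).H (pw X n)) (c : (CW (toH T)).H (pw X 0)),
          (G (n + 1)).symm (Jop (toH T) (pw X (n + 1)) (G (n + 1)
            (tc ((CW (toH T)).map p a * (CW (toH T)).map q c)))) =
          tc ((G (n + 1)).symm (Jop (toH T) (pw X (n + 1)) (G (n + 1)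
            ((CW (toH T)).map p a * (CW (toH T)).map q c)))) := by
        intro a c
        rw [h1, map_mul, Jmul, map_mul, hJp n (n + 1) p hp, hJp 0 (n + 1) q hq, hcomm, map_mul,
          Jmul, map_mul, hJp n (n + 1) p hp, hJp 0 (n + 1) q hq, h1]
      have hA : ∀ z z' : (CW (toH T)).H (pw X (n + 1)),
          (G (n + 1)).symm (Jop (toH T) (pw X (n + 1)) (G (n + 1) (tc z))) =
            tc ((G (n + 1)).symm (Jop (toH T) (pw X (n + 1)) (G (n + 1) z))) →
          (G (n + 1)).symm (Jop (toH T) (pw X (n + 1)) (G (n + 1) (tc z'))) =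
            tc ((G (n + 1)).symm (Jop (toH T) (pw X (n + 1)) (G (n + 1) z'))) →
          (G (n + 1)).symm (Jop (toH T) (pw X (n + 1)) (G (n + 1) (tc (z + z')))) =
            tc ((G (n + 1)).symm (Jop (toH T) (pw X (n + 1)) (G (n + 1) (z + z')))) := by
        intro z z' hz hz'
        rw [map_add, map_add, Jadd, map_add, hz, hz', map_add, Jadd, map_add, map_add]
      have hC : ∀ (c : (CW (toH T)).K) (z : (CW (toH T)).H (pw X (n + 1))),
          (G (n + 1)).symm (Jop (toH T) (pw X (n + 1)) (G (n + 1) (tc z))) =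
            tc ((G (n + 1)).symm (Jop (toH T) (pw X (n + 1)) (G (n + 1) z))) →
          (G (n + 1)).symm (Jop (toH T) (pw X (n + 1)) (G (n + 1) (tc (c • z)))) =
            tc ((G (n + 1)).symm (Jop (toH T) (pw X (n + 1)) (G (n + 1) (c • z)))) := by
        intro c z hz
        rw [map_smul, map_smul, Jsmul, map_smul, hz, map_smul, Jsmul, map_smul, map_smul]
      intro z
      refine hb.ind (pw X (n + 1)) (P := fun z =>
        (G (n + 1)).symm (Jop (toH T) (pw X (n + 1)) (G (n + 1) (tc z))) =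
          tc ((G (n + 1)).symm (Jop (toH T) (pw X (n + 1)) (G (n + 1) z)))) ?_ hA hC z
      intro z
      refine hsp z {z : HL T.W E (pw X (n + 1)) |
        (G (n + 1)).symm (Jop (toH T) (pw X (n + 1)) (G (n + 1) (tc (b (pw X (n + 1)) z)))) =
          tc ((G (n + 1)).symm (Jop (toH T) (pw X (n + 1))
            (G (n + 1) (b (pw X (n + 1)) z))))} ⟨?_, ?_, ?_⟩ ?_
      · change (G (n + 1)).symm (Jop (toH T) (pw X (n + 1)) (G (n + 1) (tc (b (pw X (n + 1)) 0)))) =
          tc ((G (n + 1)).symm (Jop (toH T) (pw X (n + 1)) (G (n + 1) (b (pw X (n + 1)) 0))))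
        have h4 := hC 0 (b (pw X (n + 1)) 0)
        rw [hb.zero] at h4 ⊢
        rw [map_zero, map_zero]
        have h5 : Jop (toH T) (pw X (n + 1)) 0 = 0 := by
          have h6 := Jadd (pw X (n + 1)) 0 0
          rw [add_zero] at h6
          exact left_eq_add.1 h6
        rw [h5, map_zero, map_zero]
      · intro x hx y hy
        have h4 := hA _ _ hx hy
        rw [← hb.add] at h4
        exact h4
      · intro c x hx
        have h4 := hC (cc (toH T) (σ c)) _ hx
        rw [← hb.smul] at h4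
        exact h4
      · rintro _ ⟨a, c, rfl⟩
        have h4 := h3 (b (pw X n) a) (b (pw X 0) c)
        rw [← hb.map, ← hb.map, ← hb.mul] at h4
        exact h4
    have h5 := key (b (pw X (n + 1)) x)
    rw [htc] at h5
    have h6 : (G (n + 1)).symm (Jop (toH T) (pw X (n + 1)) (G (n + 1) (b (pw X (n + 1)) x))) =
        b (pw X (n + 1)) x := by
      rw [show Jop (toH T) (pw X (n + 1)) (G (n + 1) (b (pw X (n + 1)) x)) = _ from ih,
        (G (n + 1)).symm_apply_apply]
    rw [h6, htc] at h5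
    have h7 := congrArg (G (n + 1)) h5
    rw [(G (n + 1)).apply_symm_apply] at h7
    exact h7

end Closure

end Pool.Agent.N204.HR
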