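import Pool.Agent.N204.HR.Asm2

/-!
# Positivity of the generated classes
-/

set_option linter.unusedSectionVars false

open CategoryTheory AlgebraicGeometry TensorProduct

universe u

namespace Pool.Agent.N204.HR

open Module Matrix
open Pool.Agent.H914 Pool.Agent.H914.VarClass Pool.Agent.H914.VarClass.Obj
  Pool.Agent.H914.WeilCohomology
open Pool.Agent.Y133.Half (pw pfst psnd wb)
open Pool.Agent.Y121.AH (CW em)
open Pool.Agent.Y121.AHS
open Pool.Agent.N996.BP (kp IsCoordinateMap IsPHS RForm IsPolarisation IsPolarisation.isPHS)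
open Pool.Agent.N996.BP.Geo (cc lop tauT Fx)
open Pool.Agent.N204.RD.Raw (Coh IsLin IsLinear InSpan IsSub coh ap vzero vadd vsmul)
open Pool.Agent.N204.HR.Raw

variable {k : Type u} [Field k] {𝒱 : VarClass k} {ops : CycleOps 𝒱}

section

variable {T : HodgeTheory ops} {X : 𝒱.Obj} {ψ : RForm T.W X} {E : Type} [Field E]
  [Algebra T.W.K E] {σ : E →+* ℂ} {b : ∀ Y : 𝒱.Obj, HL T.W E Y → (CW (toH T)).H Y}

lemma BD.lefb (hb : BD T σ b) (n : ℕ) (D : (pw X n).Cycles) (r : ℕ) (x : (coh T E ψ).H n) :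
    b (pw X n) (lef (coh T E ψ) n (emL T.W E (ap (T.W.cl (pw X n)) D)) r x) =
      clC T (pw X n) D ^ r * b (pw X n) x := by
  induction r with
  | zero =>
    rw [pow_zero, one_mul]
    rfl
  | succ r ih =>
    have h1 : lef (coh T E ψ) n (emL T.W E (ap (T.W.cl (pw X n)) D)) (r + 1) x =
        mulL (emL T.W E (ap (T.W.cl (pw X n)) D))
          (lef (coh T E ψ) n (emL T.W E (ap (T.W.cl (pw X n)) D)) r x) :=
      Function.iterate_succ_apply' _ _ _
    rw [h1, hb.mul, ih, hb.emb, pow_succ', mul_assoc]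
    rfl

end

/-- **The theorem.** -/
theorem main (hLV : S_LV) (hTF : S_TF.{u}) (hWC : S_WC.{u}) (hJF : S_JF.{u}) (hNS : S_NS.{u})
    (hEC : S_EC.{u}) (hHD : S_HD.{u}) (hGD : S_GD.{u}) (hKD : S_KD.{u})
    (T : HodgeTheory ops) (X : 𝒱.Obj) (ψ : RForm T.W X) (hψ : IsPolarisation T X ψ)
    (E : Type) [Field E] [Algebra T.W.K E] (q : ℕ) (φ : ∀ n, (coh T E ψ).H n → (coh T E ψ).H n)
    (S : ∀ n : ℕ, ℕ → Set (T.W.H (pw X n))) (hS : ∀ n j, ∀ c ∈ S n j, IsHodge T (pw X n) j c)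
    (h : IsFrob (coh T E ψ) q φ (Raw.ext T E S)) (n : ℕ) (D : (pw X n).Cycles)
    (hD : HodgeRiemann T (pw X n) D) (hDS : ap (T.W.cl (pw X n)) D ∈ S n 1) :
    (∀ j x, Gen (coh T E ψ) (φ 0) (Raw.ext T E S) n j x →
      Positive (coh T E ψ) n (emL T.W E (ap (T.W.cl (pw X n)) D)) j x) ∧
    (Nonempty (E →+* ℂ) →
      InverseIn (coh T E ψ) (Raw.ext T E S) n (emL T.W E (ap (T.W.cl (pw X n)) D)) →
      ∀ i j, i + j = (coh T E ψ).dim n → ∀ x, Gen (coh T E ψ) (φ 0) (Raw.ext T E S) n j x →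
        (∀ y, Gen (coh T E ψ) (φ 0) (Raw.ext T E S) n i y →
          (coh T E ψ).tr n ((coh T E ψ).mul n y x) = 0) → x = (coh T E ψ).zero n) := by
  have hdeg : ∀ (m j : ℕ) (x : (coh T E ψ).H m), Gen (coh T E ψ) (φ 0) (Raw.ext T E S) m j x →
      x ∈ (coh T E ψ).gr m (2 * j) :=
    hGD k 𝒱 ops T X ψ E (φ 0) S (fun n j c hc => (hS n j c hc).1) (h.lin 0) (h.deg 0)
  have hpos : ∀ j x, Gen (coh T E ψ) (φ 0) (Raw.ext T E S) n j x →
      Positive (coh T E ψ) n (emL T.W E (ap (T.W.cl (pw X n)) D)) j x := by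
    intro j x hx hj hprim hne σ
    obtain ⟨b, Φ, hadd, hsmul, hmul, hmap, htr, hgr, hemb, hinj, hΦ, hΦφ⟩ :=
      hEC k 𝒱 ops T X ψ hψ E q φ S hS h σ
    have hb : BD T σ b := ⟨hadd, hsmul, hmul, hmap, htr, hgr, hemb, hinj⟩
    obtain ⟨G, hG⟩ := exists_conjug hLV hTF hWC hJF hNS hψ.isPHS hΦ
    have hfx : Jop (toH T) (pw X n) (G n (b (pw X n) x)) = G n (b (pw X n) x) :=
      gen_fxd hJF hG hb hΦφ hS hx
    have hGD' : G n (clC T (pw X n) D) = clC T (pw X n) D := hG.fix n 1 _ hDS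
    have hlef := hb.lefb (ψ := ψ) n D
    obtain ⟨r, hr, h1⟩ := hHD k 𝒱 ops T (pw X n) D hD j (G n (b (pw X n) x))
      (hG.gr n _ _ (hgr _ _ _ (hdeg n j x hx))) hj hfx
      (by
        have h2 := hlef ((pw X n).dim - 2 * j + 1) x
        rw [show lef (coh T E ψ) n (emL T.W E (ap (T.W.cl (pw X n)) D))
          ((pw X n).dim - 2 * j + 1) x = (0 : HL T.W E (pw X n)) from hprim, hb.zero] at h2
        have h3 := congrArg (G n) h2
        rw [map_zero, map_mul, map_pow, hGD'] at h3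
        exact h3.symm)
      (by
        intro h2
        apply hne
        apply hinj (pw X n)
        have h3 : b (pw X n) x = 0 := by
          apply (G n).injective
          rw [h2, map_zero]
        rw [h3]
        exact (hb.zero _).symm)
    refine ⟨r, hr, ?_⟩
    rw [← h1]
    congr 1
    have h2 : (CW (toH T)).tr (pw X n) (clC T (pw X n) D ^ ((pw X n).dim - 2 * j) *
        G n (b (pw X n) x) * G n (b (pw X n) x)) =
        cc (toH T) (σ ((coh T E ψ).tr n ((coh T E ψ).mul n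
          (lef (coh T E ψ) n (emL T.W E (ap (T.W.cl (pw X n)) D)) ((pw X n).dim - 2 * j) x) x))) := by
      have h3 : clC T (pw X n) D ^ ((pw X n).dim - 2 * j) * G n (b (pw X n) x) *
          G n (b (pw X n) x) = G n (b (pw X n) (mulL
            (lef (coh T E ψ) n (emL T.W E (ap (T.W.cl (pw X n)) D)) ((pw X n).dim - 2 * j) x)
            x)) := by
        rw [hb.mul, hlef, map_mul, map_mul, map_pow, hGD']
      rw [h3, hG.tr, hb.tr]
      rfl
    rw [h2]
    rfl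
  exact ⟨hpos, fun ⟨σ⟩ hI => hKD k 𝒱 ops T X ψ E (φ 0) S σ n D hD.1 hDS hdeg hpos hI⟩

end Pool.Agent.N204.HR
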