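import Pool.Agent.N204.HR.RawThm
import Pool.Agent.N204.HR.Stm5
import Pool.Agent.N204.RD.RawThm

/-!
# The standard conjecture of Hodge type for almost all reductions: assembly
-/

set_option linter.unusedSectionVars false

open CategoryTheory AlgebraicGeometry TensorProduct

universe u

namespace Pool.Agent.N204.HR

open Module
open Pool.Agent.H914 Pool.Agent.H914.VarClass Pool.Agent.H914.VarClass.Obj
  Pool.Agent.H914.WeilCohomology
open Pool.Agent.Y133.Half (pw)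
open Pool.Agent.Y121.AHS
open Pool.Agent.N996.BP (RForm IsPolarisation)
open Pool.Agent.N204.RD.Raw (Coh coh ap InSpan Fixes IsGalois IsReduction TateForReduction)
open Pool.Agent.N204.HR.Raw (Gen HodgeRiemann)

variable {k : Type u} [Field k] {𝒱 : VarClass k} {ops : CycleOps 𝒱} {T : HodgeTheory ops}
  {X : 𝒱.Obj} {ψ : RForm T.W X} {E : Type} [Field E] [Algebra T.W.K E] {Γ : Type} [Group Γ]
  {χ : Γ →* E} {ρ : ∀ n, Γ → (coh T E ψ).H n → (coh T E ψ).H n}

/-- The rational classes of the algebraic cycles. -/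
def cycS (T : HodgeTheory ops) (X : 𝒱.Obj) (n j : ℕ) : Set (T.W.H (pw X n)) :=
  {c | ∃ z, (pw X n).IsCyc j z ∧ c = ap (T.W.cl (pw X n)) z}

lemma cyc_eq : (coh T E ψ).cyc = Raw.ext T E (cycS T X) := by
  funext n j
  ext x
  constructor
  · rintro ⟨z, hz, rfl⟩
    exact ⟨_, ⟨z, hz, rfl⟩, rfl⟩
  · rintro ⟨_, ⟨z, hz, rfl⟩, rfl⟩
    exact ⟨z, hz, rfl⟩

lemma gen_zero {φ : (coh T E ψ).H 0 → (coh T E ψ).H 0} (n j : ℕ) :
    Gen (coh T E ψ) φ (coh T E ψ).cyc n j ((coh T E ψ).zero n) := by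
  refine .base ⟨0, SmVar.IsCyc.zero _ _, ?_⟩
  change (0 : HL T.W E (pw X n)) = emL T.W E (T.W.cl (pw X n) 0)
  rw [map_zero]
  exact (TensorProduct.tmul_zero (T.W.H (pw X n)) (1 : E)).symm

/-- The generated classes belong to every system of classes with the formal properties. -/
lemma gen_sub {φ : Γ} {C : ∀ n : ℕ, ℕ → Set ((coh T E ψ).H n)}
    (hC : IsReduction (coh T E ψ) χ ρ φ C)
    (hgd : ∀ n j x, Gen (coh T E ψ) (ρ 0 φ) (coh T E ψ).cyc n j x → x ∈ (coh T E ψ).gr n (2 * j))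
    {n j : ℕ} {x : (coh T E ψ).H n} (hx : Gen (coh T E ψ) (ρ 0 φ) (coh T E ψ).cyc n j x) :
    x ∈ C n j := by
  induction hx with
  | base hx => exact hC.spec _ _ hx
  | add _ _ hx hy => exact hC.add _ _ _ hx _ hy
  | smul r _ hx => exact hC.smul _ _ _ hx r
  | mul _ _ hx hy => exact hC.mul _ _ _ _ hx _ hy
  | pull hf _ hx => exact hC.pull _ _ _ hf _ _ hx
  | @push n m i j x y f hf hgen htr hij hx =>
    obtain ⟨i', hy⟩ := hC.push _ _ _ hf _ _ hx _ htr
    have h1 : y ∈ (coh T E ψ).gr n (2 * i) := hgd n i y (.push hf hgen htr hij)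
    have h2 : y ∈ (coh T E ψ).gr n (2 * i') := hC.deg _ _ hy
    by_cases hii : i' = i
    · rw [← hii]; exact hy
    · have h3 : y = (coh T E ψ).zero n := by
        have h4 := proj_same ((baseW T.W E).isInternal (pw X n)) h1
        have h5 := proj_ne ((baseW T.W E).isInternal (pw X n)) h2
          (show 2 * i' ≠ 2 * i by omega)
        exact h4.symm.trans h5
      rw [h3]
      refine hC.spec _ _ ⟨0, SmVar.IsCyc.zero _ _, ?_⟩
      change (0 : HL T.W E (pw X n)) = emL T.W E (T.W.cl (pw X n) 0)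
      rw [map_zero]
      exact (TensorProduct.tmul_zero (T.W.H (pw X n)) (1 : E)).symm
  | frob hp hq hsp ht hpq _ hx => exact hC.frob_last _ _ hp _ hq hsp _ ht hpq _ _ hx

lemma tr_mul_add {W : WeilCohomology.{u, 0} ops} {Y : 𝒱.Obj} (y x x' : W.H Y) :
    W.tr Y (y * (x + x')) = W.tr Y (y * x) + W.tr Y (y * x') := by
  rw [mul_add, map_add]

lemma tr_mul_smul {W : WeilCohomology.{u, 0} ops} {Y : 𝒱.Obj} (y : W.H Y) (c : W.K) (x : W.H Y) :
    W.tr Y (y * (c • x)) = c * W.tr Y (y * x) := by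
  rw [mul_smul_comm, map_smul, smul_eq_mul]

/-- **The standard conjecture of Hodge type for one reduction.** -/
theorem hodge_all (hGR : S_GR.{u}) (hLA : S_LA) (hF2 : S_F2.{u}) (hF3 : S_F3.{u})
    (hF4 : S_F4.{u}) (hF5 : S_F5.{u}) (hF6 : S_F6) (hF7 : S_F7)
    (hE : Nonempty (E →+* ℂ)) (hψ : IsPolarisation T X ψ) (hG : IsGalois (coh T E ψ) χ ρ)
    {φ : Γ} (hf : RD.Raw.IsFrobenius (coh T E ψ) χ ρ φ)
    (hT : ∀ C, IsReduction (coh T E ψ) χ ρ φ C → TateForReduction (coh T E ψ) χ ρ φ C)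
    {C : ∀ n : ℕ, ℕ → Set ((coh T E ψ).H n)} (hC : IsReduction (coh T E ψ) χ ρ φ C)
    (hrat : ∀ n i j, i + j = (coh T E ψ).dim n → ∀ x ∈ C n i, ∀ y ∈ C n j,
      ∃ r : ℚ, (coh T E ψ).tr n ((coh T E ψ).mul n x y) = r)
    {n : ℕ} {D : (pw X n).Cycles} (hD : HodgeRiemann T (pw X n) D) {j : ℕ}
    {x : (coh T E ψ).H n} (hx : x ∈ C n j) (hj : 2 * j ≤ (coh T E ψ).dim n)
    (hprim : Raw.lef (coh T E ψ) n (emL T.W E (ap (T.W.cl (pw X n)) D))
      ((coh T E ψ).dim n - 2 * j + 1) x = (coh T E ψ).zero n)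
    (hx0 : x ≠ (coh T E ψ).zero n) :
    ∃ r : ℚ, 0 < r ∧ (-1) ^ j * (coh T E ψ).tr n ((coh T E ψ).mul n
      (Raw.lef (coh T E ψ) n (emL T.W E (ap (T.W.cl (pw X n)) D))
        ((coh T E ψ).dim n - 2 * j) x) x) = r := by
  obtain ⟨σ⟩ := hE
  have : CharZero E := (RingHom.charZero_iff (algebraMap T.W.K E).injective).1 inferInstance
  obtain ⟨p, hp, hW, hF, hR⟩ := hGR k 𝒱 ops T X ψ E Γ χ ρ hG φ hf
  have hS : ∀ n j, ∀ c ∈ cycS T X n j, IsHodge T (pw X n) j c := by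
    rintro n j _ ⟨z, hz, rfl⟩
    exact T.cyc (pw X n) j z hz
  have hF' : Raw.IsFrobenius (coh T E ψ) p (fun n => ρ n φ) (Raw.ext T E (cycS T X)) := by
    rw [← cyc_eq]
    exact hF
  have hgd : ∀ n j x, Gen (coh T E ψ) (ρ 0 φ) (coh T E ψ).cyc n j x →
      x ∈ (coh T E ψ).gr n (2 * j) := by
    rw [cyc_eq]
    exact N505.HR.gd k 𝒱 ops T X ψ E (ρ 0 φ) (cycS T X) (fun n j c hc => (hS n j c hc).1)
      (hG.lin 0 φ) (fun i x hx => hG.deg 0 φ i x hx)
  have hTG := hT _ hR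
  -- the Frobenius is semisimple
  have hss : Raw.Semisimple (coh T E ψ) p (ρ 0 φ) := by
    refine conv (S := cycS T X) (φ := fun n => ρ n φ) N505.HR.gd hF2 hF3 hF4 hF5 hF6 hF7 hF'
      (fun n j c hc => (hS n j c hc).1) hW ?_ ?_
    · rw [← cyc_eq]
      refine .base ⟨X.V.fundCycle, SmVar.fundCycle_mem X.V, ?_⟩
      · change emL T.W E (1 : T.W.H X) = emL T.W E (T.W.cl X X.V.fundCycle)
        rw [T.W.cl_fund]
    · rw [← cyc_eq]
      intro a b hab x hx hxy
      exact (hTG 1).2 a b hab x (fun P _ hP' => hP' hx) hxy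
  -- positivity for the generated classes
  have hpos : ∀ x, Gen (coh T E ψ) (ρ 0 φ) (coh T E ψ).cyc n j x →
      Raw.Positive (coh T E ψ) n (emL T.W E (ap (T.W.cl (pw X n)) D)) j x := by
    intro x hx
    rw [cyc_eq] at hx
    exact positive (φ := fun n => ρ n φ) hψ hS hF' hss n D hD ⟨D, hD.1, rfl⟩ j x hx
  -- all classes are generated
  have hgen : Gen (coh T E ψ) (ρ 0 φ) (coh T E ψ).cyc n j x := by
    obtain ⟨m, hm, hxm⟩ := hC.fix n j x hx
    have h1 : ∀ g ∈ Subgroup.zpowers (φ ^ m), Fixes χ ρ j x g := by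
      have h2 := RD.fixes_zpowers (χ := χ.toHomUnits) (ρ := RD.Raw.toRep hG) (x := x)
        (g := φ ^ m) hxm
      exact h2
    have h3 := ((hTG n).1 m hm).1 j |>.2 x (hC.deg n j hx) h1
    have h4 : (show HL T.W E (pw X n) from x) ∈ Submodule.span E
        ({y | Gen (coh T E ψ) (ρ 0 φ) (coh T E ψ).cyc n j y} : Set (HL T.W E (pw X n))) := by
      have h5 := RD.Raw.span_iff.1 h3
      exact Submodule.span_mono (fun y hy => hy.1) h5
    have : Module.Finite E (HL T.W E (pw X n)) := by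
      have h6 : FiniteDimensional E (E ⊗[T.W.K] T.W.H (pw X n)) := inferInstance
      exact h6
    refine hLA E (HL T.W E (pw X n)) (fun y x => (coh T E ψ).tr n ((coh T E ψ).mul n y x))
      {y | Gen (coh T E ψ) (ρ 0 φ) (coh T E ψ).cyc n j y}
      {y | Gen (coh T E ψ) (ρ 0 φ) (coh T E ψ).cyc n ((coh T E ψ).dim n - j) y}
      ?_ ?_ (gen_zero n j) (fun x hx y hy => .add hx hy) (fun x hx r => .smul r hx) ?_ ?_ x h4 ?_
    · exact fun y x x' => tr_mul_add (W := baseW T.W E) (Y := pw X n) y x x'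
    · exact fun y c x => tr_mul_smul (W := baseW T.W E) (Y := pw X n) y c x
    · intro x hx y hy
      exact hrat n _ _ (by omega) _ (gen_sub hC hgd hy) _ (gen_sub hC hgd hx)
    · intro x hx hxy
      exact (hTG n).2 ((coh T E ψ).dim n - j) j (by omega) x (RD.Raw.span_iff.2 hx) hxy
    · intro y hy
      exact hrat n _ _ (by omega) _ (gen_sub hC hgd hy) _ hx
  -- the intersection number is rational
  have hlef : ∀ r, Raw.lef (coh T E ψ) n (emL T.W E (ap (T.W.cl (pw X n)) D)) r x ∈ C n (r + j) := by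
    intro r
    induction r with
    | zero => rw [zero_add]; exact hx
    | succ r ih =>
      rw [Raw.lef, Function.iterate_succ_apply', show r + 1 + j = 1 + (r + j) by omega]
      exact hC.mul n 1 (r + j) _ (hC.spec n 1 ⟨D, hD.1, rfl⟩) _ ih
  obtain ⟨r, hr⟩ := hrat n _ j (by omega) _ (hlef ((coh T E ψ).dim n - 2 * j)) x hx
  obtain ⟨s, hs, h7⟩ := hpos x hgen hj hprim hx0 σ
  rw [hr, map_ratCast] at h7
  refine ⟨(-1) ^ j * r, ?_, ?_⟩
  · have h8 : (((-1 : ℚ) ^ j * r : ℚ) : ℝ) = s := by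
      have h9 : (((((-1 : ℚ) ^ j * r : ℚ) : ℝ)) : ℂ) = (s : ℂ) := by
        rw [← h7]
        push_cast
        ring
      exact_mod_cast h9
    have h10 : (0 : ℝ) < (((-1 : ℚ) ^ j * r : ℚ) : ℝ) := by rw [h8]; exact hs
    exact_mod_cast h10
  · rw [hr]
    push_cast
    ring

end Pool.Agent.N204.HR
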