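import Pool.Agent.N204.HR.Def0

/-!
# Classes generated by specialised classes and the Frobenius: definitions

In the intended use `T` is the theory `X ↦ H(X, ℚ)` for the smooth projective varieties over an
algebraic closure of a subfield `F` of the field of complex numbers, `X` is defined over `F`, `E` is
the field of `ℓ`-adic numbers, and `y` is a closed point of a model of `F` where `X` has good
reduction `X_y`, over the field with `q` elements. By specialisation the cohomology of
`X ^ (n + 1)` with coefficients in `E` is the `ℓ`-adic cohomology of the power `X_y ^ (n + 1)` over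
an algebraic closure of the residue field, and `φ n` is the pull-back by the Frobenius morphism of
`X_y ^ (n + 1)`.
-/

open CategoryTheory AlgebraicGeometry

universe u

namespace Pool.Agent.N204.HR.Def

/-- The operations on the cohomology of the powers `X ^ (n + 1)`, with coefficients in `E`. -/
structure Coh (E : Type) where
  /-- the cohomology of `X ^ (n + 1)` -/
  H : ℕ → Type
  /-- the zero -/
  zero : ∀ n : ℕ, H n
  /-- the sum -/
  add : ∀ n : ℕ, H n → H n → H n
  /-- the multiplication by scalars -/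
  smul : ∀ n : ℕ, E → H n → H n
  /-- the part of degree `i` -/
  gr : ∀ n : ℕ, ℕ → Set (H n)
  /-- the product -/
  mul : ∀ n : ℕ, H n → H n → H n
  /-- the trace -/
  tr : ∀ n : ℕ, H n → E
  /-- the dimension of `X ^ (n + 1)` -/
  dim : ℕ → ℕ
  /-- the pull-backs along the coordinate maps -/
  pull : ∀ n m : ℕ, Set (H n → H m)
  /-- the rational Hodge classes of degree `2 j` -/
  hodge : ∀ n : ℕ, ℕ → Set (H n)
  /-- the classes of divisors for which the Hodge-Riemann relations hold -/
  polar : ∀ n : ℕ, Set (H n)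

section Generic

variable {E : Type} [Field E] (O : Coh E)

/-- `P` is a subspace. -/
def IsSub (n : ℕ) (P : Set (O.H n)) : Prop :=
  O.zero n ∈ P ∧ (∀ x ∈ P, ∀ y ∈ P, O.add n x y ∈ P) ∧ ∀ c : E, ∀ x ∈ P, O.smul n c x ∈ P

/-- `x` is a linear combination of elements of `S`. -/
def InSpan (n : ℕ) (S : Set (O.H n)) (x : O.H n) : Prop := ∀ P, IsSub O n P → S ⊆ P → x ∈ P

/-- `f` is a linear form on the cohomology of `X`. -/
def IsLin (f : O.H 0 → E) : Prop :=
  (∀ x y, f (O.add 0 x y) = f x + f y) ∧ ∀ c x, f (O.smul 0 c x) = c * f x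

/-- `t` is a linear map on the cohomology of `X ^ (n + 1)`. -/
def IsLinear (n : ℕ) (t : O.H n → O.H n) : Prop :=
  (∀ x y, t (O.add n x y) = O.add n (t x) (t y)) ∧ ∀ c x, t (O.smul n c x) = O.smul n c (t x)

/-- The properties of the pull-backs `φ n` by the Frobenius morphisms over the field with `q`
elements and of the sets `S n j` of the classes of codimension `j` on `X_y ^ (n + 1)` which are
specialisations of, for instance, algebraic classes on `X ^ (n + 1)`:
* the maps `φ n` are linear and respect the products, the degrees and the pull-backs along the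
  coordinate maps, and `φ 0` multiplies the trace by `q ^ dim X`;
* the elements of `S n j` are rational Hodge classes on `X ^ (n + 1)` (`hodge`), `φ n` permutes them
  up to the factor `q ^ j` (`conj`), with finite orbits (`fix`);
* the class of `X` and the class of some ample divisor on `X`, defined over `F`, belong to
  `S` (`unit`, `polar`). -/
structure IsFrobenius (q : ℕ) (φ : ∀ n, O.H n → O.H n) (S : ∀ n : ℕ, ℕ → Set (O.H n)) :
    Prop where
  q_pos : 0 < q
  lin : ∀ n, IsLinear O n (φ n)
  mul : ∀ n x y, φ n (O.mul n x y) = O.mul n (φ n x) (φ n y)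
  deg : ∀ n i, ∀ x ∈ O.gr n i, φ n x ∈ O.gr n i
  pull : ∀ n m, ∀ f ∈ O.pull n m, ∀ x, φ m (f x) = f (φ n x)
  tr : ∀ x, O.tr 0 (φ 0 x) = (q : E) ^ O.dim 0 * O.tr 0 x
  hodge : ∀ n j, S n j ⊆ O.hodge n j
  conj : ∀ n j, ∀ x ∈ S n j, ∃ y ∈ S n j, φ n x = O.smul n ((q : E) ^ j) y
  fix : ∀ n j, ∀ x ∈ S n j, ∃ m : ℕ, 0 < m ∧ (φ n)^[m] x = O.smul n ((q : E) ^ (j * m)) x
  unit : ∃ u ∈ S 0 0, ∀ x, O.mul 0 u x = x
  polar : ∃ L ∈ S 0 1, L ∈ O.polar 0 ∧ φ 0 L = O.smul 0 (q : E) L

/-- Deligne's theorem: on `H^i(X)` the Frobenius is a root of a monic polynomial `Q` with integral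
coefficients, all of whose complex roots have absolute value `q ^ (i / 2)`. -/
def Weil (q : ℕ) (φ : O.H 0 → O.H 0) (i : ℕ) (Q : Polynomial ℤ) : Prop :=
  Q.Monic ∧ (∀ y : ℂ, Polynomial.aeval y Q = 0 → ‖y‖ ^ 2 = (q : ℝ) ^ i) ∧
    ∀ x ∈ O.gr 0 i, ∀ l, IsLin O l →
      ∑ m ∈ Finset.range (Q.natDegree + 1), (Q.coeff m : E) * l (φ^[m] x) = 0

/-- The Frobenius acts semisimply on the cohomology of `X`: the polynomials `Q` can be chosen without
multiple roots. -/
def Semisimple (q : ℕ) (φ : O.H 0 → O.H 0) : Prop :=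
  ∀ i : ℕ, ∃ Q : Polynomial ℤ, Weil O q φ i Q ∧ Squarefree (Q.map (Int.castRingHom ℚ))

/-- The classes on the powers of the reduction which are generated by the classes in `S` and the
Frobenius `φ` of `X_y`: `Gen n j x` says that `x` is a class of codimension `j` on
`X_y ^ (n + 1)` in the smallest system of classes which contains `S` and is stable under
* sums, multiplication by rational numbers and products;
* pull-backs and push-forwards along the coordinate maps between the powers (`y` is the push-forward
  of `x` if the projection formula holds for the traces);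
* the pull-back by the Frobenius morphism of the last factor (`p` and `q` are pull-backs along two
  coordinate maps such that the products `p a · q b` generate the cohomology of `X ^ (n + 2)`, as is
  the case for the projections to the first `n + 1` factors and to the last factor, and `t` is the
  linear map `p a · q b ↦ p a · q (φ b)`). Applied to the class of the diagonal of `X × X` this gives
  the class of the graph of the Frobenius. -/
inductive Gen (φ : O.H 0 → O.H 0) (S : ∀ n : ℕ, ℕ → Set (O.H n)) : ∀ n : ℕ, ℕ → O.H n → Prop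
  | base {n j : ℕ} {x : O.H n} : x ∈ S n j → Gen φ S n j x
  | add {n j : ℕ} {x y : O.H n} : Gen φ S n j x → Gen φ S n j y → Gen φ S n j (O.add n x y)
  | smul {n j : ℕ} {x : O.H n} (r : ℚ) : Gen φ S n j x → Gen φ S n j (O.smul n r x)
  | mul {n i j : ℕ} {x y : O.H n} : Gen φ S n i x → Gen φ S n j y →
      Gen φ S n (i + j) (O.mul n x y)
  | pull {n m j : ℕ} {x : O.H n} {f : O.H n → O.H m} : f ∈ O.pull n m → Gen φ S n j x →
      Gen φ S m j (f x)
  | push {n m i j : ℕ} {x : O.H m} {y : O.H n} {f : O.H n → O.H m} : f ∈ O.pull n m →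
      Gen φ S m j x → (∀ z, O.tr n (O.mul n z y) = O.tr m (O.mul m (f z) x)) →
      j + O.dim n = i + O.dim m → Gen φ S n i y
  | frob {n j : ℕ} {x : O.H (n + 1)} {p : O.H n → O.H (n + 1)} {q : O.H 0 → O.H (n + 1)}
      {t : O.H (n + 1) → O.H (n + 1)} : p ∈ O.pull n (n + 1) → q ∈ O.pull 0 (n + 1) →
      (∀ x, InSpan O (n + 1) {z | ∃ a b, z = O.mul (n + 1) (p a) (q b)} x) →
      IsLinear O (n + 1) t →
      (∀ a b, t (O.mul (n + 1) (p a) (q b)) = O.mul (n + 1) (p a) (q (φ b))) →
      Gen φ S (n + 1) j x → Gen φ S (n + 1) j (t x)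

/-- The product with the `r`-th power of the class `L`. -/
def lef (n : ℕ) (L : O.H n) (r : ℕ) (x : O.H n) : O.H n := (O.mul n L)^[r] x

/-- The standard conjecture of Hodge type for the generated classes on `X_y ^ (n + 1)`, of dimension
`d`, and the polarisation `L`: if a generated class `x` of codimension `j`, `2 j ≤ d`, is primitive
and not zero, then `(-1) ^ j tr(L ^ (d - 2 j) x x)` is a positive real number (for every embedding
of the coefficients into the complex numbers). -/
def HodgeType (φ : O.H 0 → O.H 0) (S : ∀ n : ℕ, ℕ → Set (O.H n)) (n : ℕ) (L : O.H n) : Prop :=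
  ∀ j x, Gen O φ S n j x → 2 * j ≤ O.dim n → lef O n L (O.dim n - 2 * j + 1) x = O.zero n →
    x ≠ O.zero n → ∀ σ : E →+* ℂ, ∃ r : ℝ, 0 < r ∧
      (-1) ^ j * σ (O.tr n (O.mul n (lef O n L (O.dim n - 2 * j) x) x)) = r

/-- The Lefschetz standard conjecture for `X ^ (n + 1)` and `L`: the inverses of the operators
`L ^ (d - i)` from degree `i` to degree `2 d - i` of `X ^ (n + 1)`, of dimension `d`, are
correspondences given by classes in `S` on the product of `X ^ (n + 1)` with itself; `p` and `q` are
the pull-backs along coordinate maps `X ^ (2 n + 2) → X ^ (n + 1)`, in the intended use the two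
projections of the product. -/
def InverseIn (S : ∀ n : ℕ, ℕ → Set (O.H n)) (n : ℕ) (L : O.H n) : Prop :=
  ∃ p ∈ O.pull n (2 * n + 1), ∃ q ∈ O.pull n (2 * n + 1), O.dim (2 * n + 1) = 2 * O.dim n ∧
    ∀ i ≤ O.dim n, ∃ l ∈ S (2 * n + 1) i, ∀ x ∈ O.gr n i, ∀ z,
      O.tr n (O.mul n z x) =
        O.tr (2 * n + 1) (O.mul (2 * n + 1) (q z)
          (O.mul (2 * n + 1) (p (lef O n L (O.dim n - i) x)) l))

/-- Homological and numerical equivalence coincide for the generated classes on `X_y ^ (n + 1)`. -/
def HomNum (φ : O.H 0 → O.H 0) (S : ∀ n : ℕ, ℕ → Set (O.H n)) (n : ℕ) : Prop :=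
  ∀ i j, i + j = O.dim n → ∀ x, Gen O φ S n j x →
    (∀ y, Gen O φ S n i y → O.tr n (O.mul n y x) = 0) → x = O.zero n

end Generic

section Cohomology

open Pool.Agent.H914 Pool.Agent.H914.VarClass Pool.Agent.H914.VarClass.Obj
  Pool.Agent.H914.WeilCohomology
open Pool.Agent.Y121.AHS Pool.Agent.N996.BP
open Pool.Agent.Y133.Half (pw)

variable {k : Type u} [Field k] {𝒱 : VarClass k} {ops : CycleOps 𝒱} (T : HodgeTheory ops)

/-- The operations on the cohomology of the powers of `X`. A coordinate map
`X ^ (m + 1) → X ^ (n + 1)` is a map all of whose components are projections. -/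
noncomputable def coh (E : Type) [Field E] [Algebra T.W.K E] (X : 𝒱.Obj) : Coh E where
  H n := HL T.W E (pw X n)
  zero _ := vzero _
  add _ := vadd
  smul _ := vsmul
  gr _ i := {x | IsDeg i x}
  mul _ := mulL
  tr _ := trL
  dim n := (pw X n).dim
  pull n m := {f | ∃ φ : pw X m ⟶ pw X n, (∀ i ≤ n, ∃ j ≤ m, φ ≫ pr X n i = pr X m j) ∧
    f = mapL φ}
  hodge n j := {x | ∃ c, IsHodge T (pw X n) j c ∧ x = emL T.W E c}
  polar n := {x | ∃ D, HodgeRiemann T (pw X n) D ∧ x = clE T E D}

end Cohomology

end Pool.Agent.N204.HR.Def
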