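import Pool.Agent.N996.BP.Ext2
import Pool.Agent.Y121.AHS.Defs
import Pool.Agent.Y133.Half.PwDefs

/-!
# The Hodge-Riemann bilinear relations: definitions
-/

open CategoryTheory AlgebraicGeometry

universe u

namespace Pool.Agent.N204.HR.Def

/-- The value of an additive map. -/
def ap {A B : Type*} [AddZeroClass A] [AddZeroClass B] (f : A →+ B) (a : A) : B := f a

/-- The zero of a vector space. -/
def vzero (V : Type) [AddCommGroup V] : V := 0

/-- The sum in a vector space. -/
def vadd {V : Type} [AddCommGroup V] (x y : V) : V := x + y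

/-- The multiplication by scalars in a vector space. -/
def vsmul {E V : Type} [Field E] [AddCommGroup V] [Module E V] (c : E) (x : V) : V := c • x

open Pool.Agent.H914 Pool.Agent.H914.VarClass Pool.Agent.H914.VarClass.Obj
  Pool.Agent.H914.WeilCohomology
open Pool.Agent.Y121.AHS Pool.Agent.N996.BP
open Pool.Agent.Y133.Half (pw)

variable {k : Type u} [Field k] {𝒱 : VarClass k} {ops : CycleOps 𝒱} (T : HodgeTheory ops)

/-- The `i`-th projection `X ^ (n + 1) → X`, `0 ≤ i ≤ n`; `pw X n` is `X ^ (n + 1)`. -/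
noncomputable def pr (X : 𝒱.Obj) : ∀ n : ℕ, ℕ → (pw X n ⟶ X)
  | 0, _ => 𝟙 X
  | n + 1, i => if i ≤ n then fst (pw X n) X ≫ pr X n i else snd (pw X n) X

/-- The class of a cycle with coefficients in `E`. -/
noncomputable def clE (E : Type) [Field E] [Algebra T.W.K E] {Y : 𝒱.Obj} (D : Y.Cycles) :
    HL T.W E Y := emL T.W E (ap (T.W.cl Y) D)

/-- The Hodge-Riemann bilinear relations for the divisor `D` on `Y`, of dimension `d` (the classical
theorem for ample `D`), for a class `x ≠ 0` of type `(p, q)`: `p` and `q` are not negative, the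
complex conjugate `x̄` is of type `(q, p)`, and if `i = p + q ≤ d` and `x` is primitive then
`(-1) ^ (i (i - 1) / 2) i ^ (p - q) tr(D ^ (d - i) x x̄)` is a positive real number. -/
def HodgeRiemann (Y : 𝒱.Obj) (D : Y.Cycles) : Prop :=
  Y.IsCyc 1 D ∧ ∀ (p q : ℤ) (x : HL T.W ℂ Y), IsType T.pq p q x → x ≠ vzero _ →
    0 ≤ p ∧ 0 ≤ q ∧ IsType T.pq q p (extConj T.rat x) ∧
    ∀ i : ℕ, p + q = i → i ≤ Y.dim → (mulL (clE T ℂ D))^[Y.dim - i + 1] x = vzero _ →
      ∃ r : ℝ, 0 < r ∧ (-1) ^ (i * (i - 1) / 2) * Complex.I ^ (p - q) *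
        trL (mulL ((mulL (clE T ℂ D))^[Y.dim - i] x) (extConj T.rat x)) = r

end Pool.Agent.N204.HR.Def
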