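import Pool.Agent.N204.HR.Def0

/-!
# The standard conjecture of Hodge type for the reductions of a variety: definitions

In the intended use `T` is the theory `X ↦ H(X, ℚ)` for the smooth projective varieties over an
algebraic closure of a finitely generated subfield `F` of the field of complex numbers, `X` is
defined over `F`, `Γ` is the Galois group of `F`, `E` is the field of `ℓ`-adic numbers, `χ` is the
inverse of the cyclotomic character and `ρ` is the action on the `ℓ`-adic cohomology of the powers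
of `X`. If `y` is a closed point of a model of `F` where `X` has good reduction `X_y`, the `ℓ`-adic
cohomology of the power `X_y ^ n` over an algebraic closure of the residue field of `y` is the
cohomology of `X ^ n`, and its geometric Frobenius is the action of a Frobenius element `φ` at `y`.
-/

open CategoryTheory AlgebraicGeometry

universe u

namespace Pool.Agent.N204.HR.Def2

/-- The operations on the cohomology of the powers `X ^ (n + 1)`, with coefficients in `E`. -/
structure Coh (E : Type) where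
  /-- the cohomology of `X ^ (n + 1)` -/
  H : ℕ → Type
  /-- the zero -/
  zero : ∀ n : ℕ, H n
  /-- the sum -/
  add : ∀ n : ℕ, H n → H n → H n
  /-- the multiplication by scalars -/
  smul : ∀ n : ℕ, E → H n → H n
  /-- the part of degree `i` -/
  gr : ∀ n : ℕ, ℕ → Set (H n)
  /-- the product -/
  mul : ∀ n : ℕ, H n → H n → H n
  /-- the trace -/
  tr : ∀ n : ℕ, H n → E
  /-- the dimension of `X ^ (n + 1)` -/
  dim : ℕ → ℕ
  /-- the pull-backs along the coordinate maps -/
  pull : ∀ n m : ℕ, Set (H n → H m)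
  /-- the classes of the algebraic cycles of codimension `j` -/
  cyc : ∀ n : ℕ, ℕ → Set (H n)
  /-- the classes of divisors for which the Hodge-Riemann relations hold -/
  polar : ∀ n : ℕ, Set (H n)
  /-- the sum of the Betti numbers of `X` -/
  betti : ℕ

section Generic

variable {E : Type} [Field E] (O : Coh E) {Γ : Type} [Group Γ]

/-- `P` is a subspace. -/
def IsSub (n : ℕ) (P : Set (O.H n)) : Prop :=
  O.zero n ∈ P ∧ (∀ x ∈ P, ∀ y ∈ P, O.add n x y ∈ P) ∧ ∀ c : E, ∀ x ∈ P, O.smul n c x ∈ P

/-- `x` is a linear combination of elements of `S`. -/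
def InSpan (n : ℕ) (S : Set (O.H n)) (x : O.H n) : Prop := ∀ P, IsSub O n P → S ⊆ P → x ∈ P

/-- `f` is a linear form on the cohomology of `X`. -/
def IsLin (f : O.H 0 → E) : Prop :=
  (∀ x y, f (O.add 0 x y) = f x + f y) ∧ ∀ c x, f (O.smul 0 c x) = c * f x

/-- `t` is a linear map on the cohomology of `X ^ (n + 1)`. -/
def IsLinear (n : ℕ) (t : O.H n → O.H n) : Prop :=
  (∀ x y, t (O.add n x y) = O.add n (t x) (t y)) ∧ ∀ c x, t (O.smul n c x) = O.smul n c (t x)

/-- The element `g` multiplies the class `x` by `χ g ^ j`: it fixes `x` after the `j`-th Tate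
twist. -/
def Fixes (χ : Γ →* E) (ρ : ∀ n, Γ → O.H n → O.H n) {n : ℕ} (j : ℕ) (x : O.H n) (g : Γ) : Prop :=
  ρ n g x = O.smul n (χ g ^ j) x

/-- `Γ` acts linearly, the action respects the products, the degrees and the pull-backs along the
coordinate maps, an element `g` multiplies the trace by `χ g ^ dim` and maps the class of a cycle of
codimension `j` to the product of `χ g ^ j` with the class of a cycle (the conjugate cycle), which
is the given class for all `g` in a subgroup of finite index. Some ample divisor on `X` is defined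
over `F` (`polar`). -/
structure IsGalois (χ : Γ →* E) (ρ : ∀ n, Γ → O.H n → O.H n) : Prop where
  one : ∀ n x, ρ n 1 x = x
  comp : ∀ n g h x, ρ n (g * h) x = ρ n g (ρ n h x)
  lin : ∀ n g, IsLinear O n (ρ n g)
  mul : ∀ n g x y, ρ n g (O.mul n x y) = O.mul n (ρ n g x) (ρ n g y)
  deg : ∀ n g i, ∀ x ∈ O.gr n i, ρ n g x ∈ O.gr n i
  pull : ∀ n m, ∀ f ∈ O.pull n m, ∀ g x, ρ m g (f x) = f (ρ n g x)
  tr : ∀ n g x, O.tr n (ρ n g x) = χ g ^ O.dim n * O.tr n x
  conj : ∀ n g j, ∀ x ∈ O.cyc n j, ∃ y ∈ O.cyc n j, ρ n g x = O.smul n (χ g ^ j) y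
  fix : ∀ n j, ∀ x ∈ O.cyc n j, ∃ Δ : Subgroup Γ, Δ.FiniteIndex ∧ ∀ g ∈ Δ, Fixes O χ ρ j x g
  polar : ∃ L ∈ O.polar 0, ∀ g, Fixes O χ ρ 1 L g

/-- The element `f` has the properties of a geometric Frobenius element at a place with residue
field `𝔽_p` where `X` has good reduction: `χ f = p`, and on `H^i(X)` it satisfies a monic equation
with integral coefficients, of degree at most the total Betti number, all of whose complex roots
have absolute value `p ^ (i / 2)`. (By Deligne's theorem the characteristic polynomial is such a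
polynomial.) -/
def IsFrobenius (χ : Γ →* E) (ρ : ∀ n, Γ → O.H n → O.H n) (f : Γ) : Prop :=
  ∃ p : ℕ, p.Prime ∧ χ f = p ∧ ∀ i : ℕ, ∃ Q : Polynomial ℤ, Q.Monic ∧ Q.natDegree ≤ O.betti ∧
    (∀ y : ℂ, Polynomial.aeval y Q = 0 → ‖y‖ ^ 2 = (p : ℝ) ^ i) ∧
    ∀ x ∈ O.gr 0 i, ∀ l, IsLin O l →
      ∑ m ∈ Finset.range (Q.natDegree + 1), (Q.coeff m : E) * l (ρ 0 (f ^ m) x) = 0

/-- The action on `H(X)` is continuous and the Frobenius elements are dense (Chebotarev; the places
of degree one suffice). -/
structure IsArithmetic (χ : Γ →* E) (ρ : ∀ n, Γ → O.H n → O.H n) [TopologicalSpace Γ]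
    [TopologicalSpace E] : Prop where
  cont : ∀ x l, IsLin O l → Continuous fun g => l (ρ 0 g x)
  cont_χ : Continuous χ
  dense : Dense {f | IsFrobenius O χ ρ f}

/-- The representation of the subgroup `Δ` on the subspace `P` is semisimple: every `Δ`-stable
subspace of `P` has a `Δ`-stable complement in `P`. -/
def IsSemisimpleOn (ρ : ∀ n, Γ → O.H n → O.H n) (n : ℕ) (Δ : Subgroup Γ) (P : Set (O.H n)) :
    Prop :=
  ∀ U ⊆ P, IsSub O n U → (∀ g ∈ Δ, ∀ x ∈ U, ρ n g x ∈ U) →
    ∃ V ⊆ P, IsSub O n V ∧ (∀ g ∈ Δ, ∀ x ∈ V, ρ n g x ∈ V) ∧ (∀ x ∈ U, x ∈ V → x = O.zero n) ∧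
      ∀ x ∈ P, ∃ y ∈ U, ∃ z ∈ V, x = O.add n y z

/-- The Tate conjecture and the semisimplicity conjecture for the variety `X ^ (n + 1)` over the
extension of the ground field with the Galois group `Δ`: for every `j` the representation of `Δ` on
the cohomology of degree `2 j` is semisimple, and every class of degree `2 j` which is invariant
under `Δ` after the `j`-th Tate twist is a linear combination with coefficients in `E` of classes
of algebraic cycles which are invariant under `Δ` after the `j`-th Tate twist. -/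
def Tate (χ : Γ →* E) (ρ : ∀ n, Γ → O.H n → O.H n) (n : ℕ) (Δ : Subgroup Γ) : Prop :=
  ∀ j : ℕ, IsSemisimpleOn O ρ n Δ (O.gr n (2 * j)) ∧
    ∀ x ∈ O.gr n (2 * j), (∀ g ∈ Δ, Fixes O χ ρ j x g) →
      InSpan O n {y | y ∈ O.cyc n j ∧ ∀ g ∈ Δ, Fixes O χ ρ j y g} x

/-- The sets `C n j` have the formal properties of the sets of the classes of the algebraic cycles
(with rational coefficients) of codimension `j` on the powers `X_y ^ (n + 1)` over the algebraic
closure of the residue field:
* they contain the classes of the algebraic cycles on `X ^ (n + 1)` (specialisation);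
* they consist of classes of degree `2 j`, they are stable under sums and multiplication by rational
  numbers, and respected by products and by pull-backs and push-forwards along the coordinate maps
  between the powers (`y` is the push-forward of `x` if the projection formula holds for the traces);
* they are stable under the pull-back by the Frobenius morphism, acting on all factors (`frob`) or
  only on the last factor (`frob_last`: `p` and `q` are pull-backs along two coordinate maps such that
  the products `p a · q b` generate the cohomology of `X ^ (n + 2)`, as is the case for the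
  projections to the first `n + 1` factors and to the last factor, and `t` is the linear map
  `p a · q b ↦ p a · q (φ b)`);
* every algebraic cycle is defined over a finite extension of the residue field: some power of `φ`
  fixes its class after the Tate twist;
* the intersection numbers are rational. -/
structure IsReduction (χ : Γ →* E) (ρ : ∀ n, Γ → O.H n → O.H n) (φ : Γ)
    (C : ∀ n : ℕ, ℕ → Set (O.H n)) : Prop where
  spec : ∀ n j, O.cyc n j ⊆ C n j
  deg : ∀ n j, C n j ⊆ O.gr n (2 * j)
  add : ∀ n j, ∀ x ∈ C n j, ∀ y ∈ C n j, O.add n x y ∈ C n j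
  smul : ∀ n j, ∀ x ∈ C n j, ∀ r : ℚ, O.smul n r x ∈ C n j
  mul : ∀ n i j, ∀ x ∈ C n i, ∀ y ∈ C n j, O.mul n x y ∈ C n (i + j)
  pull : ∀ n m, ∀ f ∈ O.pull n m, ∀ j, ∀ x ∈ C n j, f x ∈ C m j
  push : ∀ n m, ∀ f ∈ O.pull n m, ∀ j, ∀ x ∈ C m j, ∀ y,
    (∀ z, O.tr n (O.mul n z y) = O.tr m (O.mul m (f z) x)) → ∃ i, y ∈ C n i
  frob : ∀ n j, ∀ x ∈ C n j, ρ n φ x ∈ C n j
  frob_last : ∀ n, ∀ p ∈ O.pull n (n + 1), ∀ q ∈ O.pull 0 (n + 1),
    (∀ x, InSpan O (n + 1) {z | ∃ a b, z = O.mul (n + 1) (p a) (q b)} x) →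
    ∀ t, IsLinear O (n + 1) t →
    (∀ a b, t (O.mul (n + 1) (p a) (q b)) = O.mul (n + 1) (p a) (q (ρ 0 φ b))) →
    ∀ j, ∀ x ∈ C (n + 1) j, t x ∈ C (n + 1) j
  fix : ∀ n j, ∀ x ∈ C n j, ∃ m : ℕ, 0 < m ∧ Fixes O χ ρ j x (φ ^ m)
  rational : ∀ n i j, i + j = O.dim n → ∀ x ∈ C n i, ∀ y ∈ C n j,
    ∃ r : ℚ, O.tr n (O.mul n x y) = r

/-- The product with the `r`-th power of the class `L`. -/
def lef (n : ℕ) (L : O.H n) (r : ℕ) (x : O.H n) : O.H n := (O.mul n L)^[r] x

/-- The standard conjecture of Hodge type for the classes `C` on all powers `X_y ^ (n + 1)`, of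
dimension `d`, and all polarisations `L` which lift to `X ^ (n + 1)`: if `x` is a class of
codimension `j`, `2 j ≤ d`, which is primitive and not zero, then the rational number
`(-1) ^ j tr(L ^ (d - 2 j) x x)` is positive. -/
def HodgeType (C : ∀ n : ℕ, ℕ → Set (O.H n)) : Prop :=
  ∀ n, ∀ L ∈ O.polar n, ∀ j, ∀ x ∈ C n j, 2 * j ≤ O.dim n →
    lef O n L (O.dim n - 2 * j + 1) x = O.zero n → x ≠ O.zero n →
    ∃ r : ℚ, 0 < r ∧ (-1) ^ j * O.tr n (O.mul n (lef O n L (O.dim n - 2 * j) x) x) = r

end Generic

section Cohomology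

open Pool.Agent.H914 Pool.Agent.H914.VarClass Pool.Agent.H914.VarClass.Obj
  Pool.Agent.H914.WeilCohomology
open Pool.Agent.Y121.AHS Pool.Agent.N996.BP
open Pool.Agent.Y133.Half (pw)
open Pool.Agent.N204.HR.Def (vzero vadd vsmul pr clE HodgeRiemann)

variable {k : Type u} [Field k] {𝒱 : VarClass k} {ops : CycleOps 𝒱} (T : HodgeTheory ops)

/-- The operations on the cohomology of the powers of `X`. A coordinate map
`X ^ (m + 1) → X ^ (n + 1)` is a map all of whose components are projections. -/
noncomputable def coh (E : Type) [Field E] [Algebra T.W.K E] (X : 𝒱.Obj) : Coh E where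
  H n := HL T.W E (pw X n)
  zero _ := vzero _
  add _ := vadd
  smul _ := vsmul
  gr _ i := {x | IsDeg i x}
  mul _ := mulL
  tr _ := trL
  dim n := (pw X n).dim
  pull n m := {f | ∃ φ : pw X m ⟶ pw X n, (∀ i ≤ n, ∃ j ≤ m, φ ≫ pr X n i = pr X m j) ∧
    f = mapL φ}
  cyc n j := {x | ∃ z : (pw X n).Cycles, (pw X n).IsCyc j z ∧ x = clE T E z}
  polar n := {x | ∃ D : (pw X n).Cycles, HodgeRiemann T (pw X n) D ∧ x = clE T E D}
  betti := Module.finrank T.W.K (T.W.H X)

end Cohomology

/-- The explicit exponent. -/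
def tateExponent (b : ℕ) : ℕ := (4 * b * b.factorial * (b ^ 2 + 1)) ^ (b ^ 2 + 1)

end Pool.Agent.N204.HR.Def2
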