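import Pool.Agent.N204.HR.Asm5
import Pool.Agent.N204.HR.Trans
import Pool.Agent.N204.HR.Def2

/-!
# The second theorem in terms of the final definitions
-/

set_option linter.unusedSectionVars false

open CategoryTheory AlgebraicGeometry TensorProduct

universe u

namespace Pool.Agent.N204.HR

open MeasureTheory
open Pool.Agent.H914 Pool.Agent.H914.VarClass Pool.Agent.H914.VarClass.Obj
  Pool.Agent.H914.WeilCohomology
open Pool.Agent.Y133.Half (pw)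
open Pool.Agent.Y121.AHS
open Pool.Agent.N996.BP (RForm IsPolarisation)
open Pool.Agent.N204.RD.Raw (extBilE)

/-- The polarisation given by an ample divisor, with arbitrary multipliers. -/
def S_P2c : Prop := ∀ (k : Type u) [Field k] (𝒱 : VarClass k) (ops : CycleOps 𝒱)
  (T : HodgeTheory ops) (X : 𝒱.Obj) (D : X.Cycles), Def.HodgeRiemann T X D →
  ∃ ψ : RForm T.W X, IsPolarisation T X ψ ∧
    ∀ (E : Type) [Field E] [Algebra T.W.K E] (c : E) (f : HL T.W E X → HL T.W E X), c ≠ 0 →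
      (∀ x y, f (x + y) = f x + f y) → (∀ (c : E) x, f (c • x) = c • f x) →
      (∀ x y, f (mulL x y) = mulL (f x) (f y)) → (∀ i x, IsDeg i x → IsDeg i (f x)) →
      (∀ x, trL (f x) = c ^ X.dim * trL x) →
      f (emL T.W E (T.W.cl X D)) = c • emL T.W E (T.W.cl X D) →
      ∀ i x, IsDeg i x → ∀ y, extBilE E ψ (f x) (f y) = c ^ i * extBilE E ψ x y

variable {k : Type u} [Field k] {𝒱 : VarClass k} {ops : CycleOps 𝒱} {T : HodgeTheory ops}
  {X : 𝒱.Obj} {E : Type} [Field E] [Algebra T.W.K E] {Γ : Type} [Group Γ]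
  {χ : Γ →* E} {ρ : ∀ n, Γ → (Def2.coh T E X).H n → (Def2.coh T E X).H n}

lemma mem_pull2 (ψ : RForm T.W X) {n m : ℕ} {f : HL T.W E (pw X n) → HL T.W E (pw X m)} :
    f ∈ (Def2.coh T E X).pull n m ↔ f ∈ (RD.Raw.coh T E ψ).pull n m :=
  mem_pull ψ

lemma isGalois_raw (hP : S_P2c.{u}) (h : Def2.IsGalois (Def2.coh T E X) χ ρ) :
    ∃ ψ : RForm T.W X, IsPolarisation T X ψ ∧ RD.Raw.IsGalois (RD.Raw.coh T E ψ) χ ρ := by
  obtain ⟨L, ⟨D, hD, hLD⟩, hρL⟩ := h.polar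
  obtain ⟨ψ, hψ, hform⟩ := hP k 𝒱 ops T X D hD
  refine ⟨ψ, hψ, ?_⟩
  exact {
    one := h.one
    comp := h.comp
    lin := h.lin
    mul := h.mul
    deg := h.deg
    pull := fun n m f hf g x => h.pull n m f ((mem_pull2 ψ).2 hf) g x
    tr := h.tr
    conj := h.conj
    fix := h.fix
    form := fun g => hform E (χ g) (ρ 0 g) (by
        intro h0
        have h1 : χ g * χ g⁻¹ = 1 := by rw [← map_mul, mul_inv_cancel, map_one]
        rw [h0, zero_mul] at h1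
        exact zero_ne_one h1) (h.lin 0 g).1 (h.lin 0 g).2 (h.mul 0 g) (h.deg 0 g) (h.tr 0 g) (by
      have h2 := hρL g
      rw [hLD] at h2
      have h3 : ρ 0 g (Def.clE T E D) = χ g ^ 1 • (show HL T.W E X from Def.clE T E D) := h2
      rw [pow_one] at h3
      exact h3) }

lemma isReduction_raw (ψ : RForm T.W X) {φ : Γ} {C : ∀ n : ℕ, ℕ → Set ((Def2.coh T E X).H n)}
    (h : Def2.IsReduction (Def2.coh T E X) χ ρ φ C) :
    RD.Raw.IsReduction (RD.Raw.coh T E ψ) χ ρ φ C where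
  spec := h.spec
  deg := h.deg
  add := h.add
  smul := h.smul
  mul := h.mul
  pull n m f hf := h.pull n m f ((mem_pull2 ψ).2 hf)
  push n m f hf := h.push n m f ((mem_pull2 ψ).2 hf)
  frob := h.frob
  frob_last n p hp q hq := h.frob_last n p ((mem_pull2 ψ).2 hp) q ((mem_pull2 ψ).2 hq)
  fix := h.fix

/-- **The second theorem.** -/
theorem final2 (hP : S_P2c.{u}) (hGR : S_GR.{u}) (hLA : S_LA) (hF2 : S_F2.{u}) (hF3 : S_F3.{u})
    (hF4 : S_F4.{u}) (hF5 : S_F5.{u}) (hF6 : S_F6) (hF7 : S_F7)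
    [TopologicalSpace E] [IsTopologicalRing E] [T2Space E] (hE : Nonempty (E →+* ℂ))
    [TopologicalSpace Γ] [IsTopologicalGroup Γ] [CompactSpace Γ] [MeasurableSpace Γ]
    [BorelSpace Γ] (hG : Def2.IsGalois (Def2.coh T E X) χ ρ)
    (hA : Def2.IsArithmetic (Def2.coh T E X) χ ρ)
    (hX : ∀ Δ : Subgroup Γ, Δ.FiniteIndex → IsOpen (Δ : Set Γ) →
      Def2.Tate (Def2.coh T E X) χ ρ (Def2.tateExponent (Def2.coh T E X).betti - 1) Δ) :
    ∃ Δ₀ : Subgroup Γ, Δ₀.FiniteIndex ∧ IsOpen (Δ₀ : Set Γ) ∧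
      ∃ Z ⊆ (Δ₀ : Set Γ), IsClosed Z ∧ (∀ g ∈ Z, ∀ h ∈ Δ₀, h * g * h⁻¹ ∈ Z) ∧
        (∀ (μ : Measure Γ) [μ.IsMulLeftInvariant] [IsFiniteMeasure μ], μ Z = 0) ∧
        ∀ φ ∈ Δ₀, φ ∉ Z → Def2.IsFrobenius (Def2.coh T E X) χ ρ φ →
          ∀ C, Def2.IsReduction (Def2.coh T E X) χ ρ φ C →
            Def2.HodgeType (Def2.coh T E X) C := by
  obtain ⟨ψ, hψ, hG'⟩ := isGalois_raw hP hG
  have hA' : RD.Raw.IsArithmetic (RD.Raw.coh T E ψ) χ ρ := ⟨hA.cont, hA.cont_χ, hA.dense⟩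
  obtain ⟨⟨Δ₀, h1, h2, h3⟩, h4⟩ := RD.Raw.main (ψ := ψ) hE hψ hG' hA' hX
  obtain ⟨Z, hZ1, hZ2, hZ3, hZ4, hZ5⟩ := h4 Δ₀ h1 h2 h3
  refine ⟨Δ₀, h1, h2, Z, hZ1, hZ2, hZ3, hZ4, fun φ hφ hφZ hf C hC => ?_⟩
  rintro n L ⟨D, hD, rfl⟩ j x hx hj hprim hx0
  exact hodge_all hGR hLA hF2 hF3 hF4 hF5 hF6 hF7 hE hψ hG' hf (hZ5 φ hφ hφZ hf)
    (isReduction_raw ψ hC) hC.rational (hodgeRiemann_raw hD) hx hj hprim hx0

end Pool.Agent.N204.HR
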