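import Pool.Agent.N42.HR.P2
import Pool.Agent.N204.HR.Trans2

/-!
# The polarisation given by an ample divisor: arbitrary similitudes

The proofs are those of helper42 (`Pool.Agent.N42.HR`), with an arbitrary non-zero scalar in place
of the number of elements of the finite field.
-/

set_option linter.unusedSectionVars false

open CategoryTheory AlgebraicGeometry TensorProduct

universe u

namespace Pool.Agent.N204.HR

open Module Finset
open Pool.Agent.H914 Pool.Agent.H914.VarClass Pool.Agent.H914.VarClass.Obj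
  Pool.Agent.H914.WeilCohomology
open Pool.Agent.Y121.AH (CW em)
open Pool.Agent.Y121.AHS
open Pool.Agent.N996.BP (RForm IsPolarisation conjH formC extConj conjK)
open Pool.Agent.N204.RD.Raw (extBilE)
open Pool.Agent.N816.HR (prt prt_same prt_mem prt_mul pow_mem tr_pq)
open Pool.Agent.N42.HR

section Frob

variable {F A : Type} [Field F] [CharZero F] [Ring A] [Algebra F A] {gr : ℕ → Submodule F A}
  {tr : A →ₗ[F] F} {L : A} {d : ℕ} {c : ℕ → Module.End F A} {S : Module.End F A}

/-- **The Frobenius.** -/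
theorem frobc (hI : DirectSum.IsInternal gr) (hc : IsComp gr (LinearMap.mulLeft F L) d c)
    (hu : IsUniq gr (LinearMap.mulLeft F L) d)
    (hS : ∀ j ≤ d, ∀ a ∈ gr j, S a = (-1 : F) ^ (j * (j - 1) / 2) • (L ^ (d - j) * a))
    (q : F) (hq0 : q ≠ 0) (f : A → A) (hadd : ∀ x y, f (x + y) = f x + f y)
    (hmul : ∀ x y, f (x * y) = f x * f y)
    (hdeg : ∀ i, ∀ x ∈ gr i, f x ∈ gr i) (htr : ∀ x, tr (f x) = q ^ d * tr x)
    (hL : f L = q • L) {i : ℕ} {x : A} (hx : x ∈ gr i) (y : A) :
    ∑ r ∈ range (d + 1), tr (S (c r (f x)) * c r (f y)) =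
      q ^ i * ∑ r ∈ range (d + 1), tr (S (c r x) * c r y) := by
  have h0 : f 0 = 0 := by
    have := hadd 0 0
    rw [add_zero] at this
    exact left_eq_add.1 this
  have hsum : ∀ (s : Finset ℕ) (g : ℕ → A), f (∑ r ∈ s, g r) = ∑ r ∈ s, f (g r) := by
    intro s g
    classical
    induction s using Finset.induction_on with
    | empty => rw [Finset.sum_empty, Finset.sum_empty, h0]
    | insert a s ha ih => rw [Finset.sum_insert ha, Finset.sum_insert ha, hadd, ih]
  have h1 : ∀ (n : ℕ) (y : A), f (L ^ n * y) = q ^ n • (L ^ n * f y) := by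
    intro n
    induction n with
    | zero => intro y; rw [pow_zero, pow_zero, one_mul, one_mul, one_smul]
    | succ n ih =>
      intro y
      rw [pow_succ' L n, mul_assoc, hmul, ih, hL, smul_mul_assoc, mul_smul_comm, smul_smul,
        ← mul_assoc, ← pow_succ' L n, ← pow_succ']
  have hpow : ∀ (n : ℕ) (y : A), (LinearMap.mulLeft F L ^ n) y = L ^ n * y := by
    intro n y
    rw [LinearMap.pow_mulLeft, LinearMap.mulLeft_apply]
  have h2 : ∀ (r : ℕ) (y : A), c r (f y) = q ^ r • f (c r y) := by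
    intro r y
    refine gr_induction hI (p := fun y => c r (f y) = q ^ r • f (c r y)) ?_ ?_ y
    · intro i y hy
      obtain ⟨h3, h4⟩ := hc i y hy
      refine comp_eq hc hu (hdeg i y hy) (a := fun r => q ^ r • f (c r y)) ?_ ?_ r
      · intro r
        apply isPr_smul
        rcases h3 r with h5 | ⟨j, h5, h6, h7, h8⟩
        · rw [h5, h0]
          exact Or.inl rfl
        · refine Or.inr ⟨j, h5, h6, hdeg j _ h7, ?_⟩
          rw [hpow] at h8 ⊢
          have h9 := h1 (d - j + 1) (c r y)
          rw [h8, h0] at h9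
          rcases smul_eq_zero.1 h9.symm with h10 | h10
          · exact absurd h10 (pow_ne_zero _ hq0)
          · exact h10
      · conv_lhs => rw [h4, hsum]
        refine Finset.sum_congr rfl fun r _ => ?_
        rw [hpow, h1, map_smul, hpow]
    · intro a b ha hb
      rw [hadd, map_add, ha, hb, map_add, hadd, smul_add]
  have h3 : ∀ j ≤ d, ∀ z ∈ gr j, ∀ w, tr (S (f z) * f w) = q ^ j * tr (S z * w) := by
    intro j hj z hz w
    apply mul_left_cancel₀ (pow_ne_zero (d - j) hq0)
    rw [hS j hj z hz, hS j hj _ (hdeg j z hz), smul_mul_assoc, smul_mul_assoc, map_smul, map_smul,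
      smul_eq_mul, smul_eq_mul, mul_left_comm]
    have h4 : q ^ (d - j) * tr (L ^ (d - j) * f z * f w) =
        q ^ d * tr (L ^ (d - j) * z * w) := by
      rw [← htr, hmul, h1, smul_mul_assoc, map_smul, smul_eq_mul]
    rw [h4]
    have h5 : q ^ d = q ^ (d - j) * q ^ j := by
      rw [← pow_add]
      congr 1
      omega
    rw [h5]
    ring
  obtain ⟨h4, -⟩ := hc i x hx
  rw [Finset.mul_sum]
  refine Finset.sum_congr rfl fun r _ => ?_
  rw [h2, h2, map_smul, smul_mul_smul_comm, map_smul, smul_eq_mul]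
  rcases h4 r with h5 | ⟨j, h5, h6, h7, -⟩
  · rw [h5, h0, map_zero, zero_mul, zero_mul, map_zero, mul_zero, mul_zero]
  · rw [h3 j (by omega) _ h7, ← mul_assoc]
    congr 1
    rw [h5]
    ring

end Frob

/-- **The polarisation.** -/
theorem p2c (h1 : S_P1.{u}) (hd : S_PD) : S_P2c.{u} := by
  intro k _ 𝒱 ops T X D hR
  obtain ⟨hinj, hinjE⟩ := h1 k 𝒱 ops T X D hR
  have hL : T.W.cl X D ∈ T.W.gr X 2 := T.W.cl_mem hR.1
  have hHL : IsHL (T.W.gr X) (LinearMap.mulLeft T.W.K (T.W.cl X D)) X.dim :=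
    isHL (T.W.isPoincareAlgebra X) hL hinj
  obtain ⟨⟨c, hc⟩, -⟩ := hd T.W.K (T.W.H X) (T.W.gr X)
    (LinearMap.mulLeft T.W.K (T.W.cl X D)) X.dim hHL
  have hcE : ∀ (E : Type) [Field E] [Algebra T.W.K E],
      IsComp (fun i => (T.W.gr X i).baseChange E)
        (LinearMap.mulLeft E ((1 : E) ⊗ₜ[T.W.K] T.W.cl X D)) X.dim
        (fun r => ((c r).baseChange E : Module.End E (E ⊗[T.W.K] T.W.H X))) := by
    intro E _ _
    have h2 := isComp_base (E := E) (gr := T.W.gr X)
      (l := LinearMap.mulLeft T.W.K (T.W.cl X D)) (d := X.dim) (c := c) hc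
    rwa [Pool.Agent.N42.HR.mulLeft_base] at h2
  have huE : ∀ (E : Type) [Field E] [Algebra T.W.K E],
      IsUniq (fun i => (T.W.gr X i).baseChange E)
        (LinearMap.mulLeft E ((1 : E) ⊗ₜ[T.W.K] T.W.cl X D)) X.dim := by
    intro E _ _
    have hP := IsPoincareAlgebra.baseChange (L := E) (T.W.isPoincareAlgebra X)
    have := hP.finite
    exact (hd E (E ⊗[T.W.K] T.W.H X) _ _ X.dim
      (isHL hP (Submodule.tmul_mem_baseChange_of_mem 1 hL) (hinjE E))).2
  refine ⟨psi (T.W.isInternal X) (T.W.tr X) (T.W.cl X D) X.dim c, ?_, ?_⟩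
  · have H := dat T D hR (hcE ℂ) (huE ℂ)
    have hψ := fun x y : ℂ ⊗[T.W.K] T.W.H X =>
      psi_base (E := ℂ) (T.W.isInternal X) (T.W.tr X) (T.W.cl X D) X.dim c x y
    exact
      { range := fun p q x hx h0 => H.range' hx h0
        conj := fun p q x hx => H.conj' hx
        orth := fun p q r s x y hx hy hne => (hψ x y).trans (H.orth' hx hy hne)
        pos := fun p q x hx h0 => by
          obtain ⟨r, h2, h3⟩ := H.pos' hx h0
          refine ⟨r, h2, Eq.trans ?_ h3⟩
          exact congrArg (fun z => Complex.I ^ (p - q) * z) (hψ x _) }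
  · intro E _ _ q f hq hadd _ hmul hdeg htr hL' i x hx y
    have : CharZero E := charZero_of_injective_algebraMap (algebraMap T.W.K E).injective
    have hP := IsPoincareAlgebra.baseChange (L := E) (T.W.isPoincareAlgebra X)
    have h2 := frobc (F := E) (A := E ⊗[T.W.K] T.W.H X) (tr := formBase E (T.W.tr X))
      (S := (Sop (T.W.isInternal X) (T.W.cl X D) X.dim).baseChange E)
      hP.isInternal (hcE E) (huE E) (fun j hj a ha => Sop_base _ _ hj ha) q hq f hadd hmul
      (fun i x hx => hdeg i x hx) htr hL' hx y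
    have hψ := fun x y : E ⊗[T.W.K] T.W.H X =>
      psi_base (E := E) (T.W.isInternal X) (T.W.tr X) (T.W.cl X D) X.dim c x y
    exact (hψ (f x) (f y)).trans (h2.trans (congrArg (fun z => q ^ i * z) (hψ x y).symm))

end Pool.Agent.N204.HR
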