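import Pool.Agent.N204.RD.Raw

/-!
# Classes generated by specialised Hodge classes and the Frobenius: definitions

In the intended use `T` is the theory `X ↦ H(X, ℚ)` for the smooth projective varieties over an
algebraic closure of a subfield `F` of the field of complex numbers, `X` is defined over `F`, `E` is
the field of `ℓ`-adic numbers, and `y` is a closed point of a model of `F` where `X` has good
reduction `X_y`, over the field with `q` elements. `HL T.W E (pw X n)` is the `ℓ`-adic cohomology of
`X ^ (n + 1)` and, by specialisation, of the power `X_y ^ (n + 1)` over an algebraic closure of the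
residue field, and `φ n` is the pull-back by the Frobenius morphism of `X_y ^ (n + 1)`.
-/

open CategoryTheory AlgebraicGeometry

universe u

namespace Pool.Agent.N204.HR.Raw

open Pool.Agent.N204.RD.Raw

section Generic

variable {E : Type} [Field E] (O : Coh E)

/-- The properties of the pull-backs `φ n` by the Frobenius morphisms over the field with `q`
elements: they are linear and respect the products, the degrees and the pull-backs along the
coordinate maps, `φ 0` multiplies the trace by `q ^ dim X` and, in degree `i`, the form by `q ^ i`.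
The sets `S n j` of classes on `X ^ (n + 1)` are permuted up to the factor `q ^ j`, with finite
orbits. -/
structure IsFrobenius (q : ℕ) (φ : ∀ n, O.H n → O.H n) (S : ∀ n : ℕ, ℕ → Set (O.H n)) :
    Prop where
  q_pos : 0 < q
  lin : ∀ n, IsLinear O n (φ n)
  mul : ∀ n x y, φ n (O.mul n x y) = O.mul n (φ n x) (φ n y)
  deg : ∀ n i, ∀ x ∈ O.gr n i, φ n x ∈ O.gr n i
  pull : ∀ n m, ∀ f ∈ O.pull n m, ∀ x, φ m (f x) = f (φ n x)
  tr : ∀ x, O.tr 0 (φ 0 x) = (q : E) ^ O.dim 0 * O.tr 0 x
  form : ∀ i, ∀ x ∈ O.gr 0 i, ∀ y, O.form (φ 0 x) (φ 0 y) = (q : E) ^ i * O.form x y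
  conj : ∀ n j, ∀ x ∈ S n j, ∃ y ∈ S n j, φ n x = O.smul n ((q : E) ^ j) y
  fix : ∀ n j, ∀ x ∈ S n j, ∃ m : ℕ, 0 < m ∧ (φ n)^[m] x = O.smul n ((q : E) ^ (j * m)) x

/-- Deligne's theorem: on `H^i(X)` the Frobenius is a root of a monic polynomial `Q` with integral
coefficients, all of whose complex roots have absolute value `q ^ (i / 2)`. -/
def Weil (q : ℕ) (φ : O.H 0 → O.H 0) (i : ℕ) (Q : Polynomial ℤ) : Prop :=
  Q.Monic ∧ (∀ y : ℂ, Polynomial.aeval y Q = 0 → ‖y‖ ^ 2 = (q : ℝ) ^ i) ∧
    ∀ x ∈ O.gr 0 i, ∀ l, IsLin O l →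
      ∑ m ∈ Finset.range (Q.natDegree + 1), (Q.coeff m : E) * l (φ^[m] x) = 0

/-- The Frobenius acts semisimply on the cohomology of `X`: the polynomials `Q` can be chosen without
multiple roots. -/
def Semisimple (q : ℕ) (φ : O.H 0 → O.H 0) : Prop :=
  ∀ i : ℕ, ∃ Q : Polynomial ℤ, Weil O q φ i Q ∧ Squarefree (Q.map (Int.castRingHom ℚ))

/-- The classes on the powers of the reduction which are generated by the classes in `S` and the
Frobenius `φ` of `X_y`: `Gen n j x` says that `x` is a class of codimension `j` on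
`X_y ^ (n + 1)` in the smallest system of classes which contains `S` and is stable under
* sums, multiplication by rational numbers and products;
* pull-backs and push-forwards along the coordinate maps between the powers (`y` is the push-forward
  of `x` if the projection formula holds for the traces);
* the pull-back by the Frobenius morphism of the last factor (`p` and `q` are pull-backs along two
  coordinate maps such that the products `p a · q b` generate the cohomology of `X ^ (n + 2)`, as is
  the case for the projections to the first `n + 1` factors and to the last factor, and `t` is the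
  linear map `p a · q b ↦ p a · q (φ b)`). Applied to the class of the diagonal of `X × X` this gives
  the class of the graph of the Frobenius. -/
inductive Gen (φ : O.H 0 → O.H 0) (S : ∀ n : ℕ, ℕ → Set (O.H n)) : ∀ n : ℕ, ℕ → O.H n → Prop
  | base {n j : ℕ} {x : O.H n} : x ∈ S n j → Gen φ S n j x
  | add {n j : ℕ} {x y : O.H n} : Gen φ S n j x → Gen φ S n j y → Gen φ S n j (O.add n x y)
  | smul {n j : ℕ} {x : O.H n} (r : ℚ) : Gen φ S n j x → Gen φ S n j (O.smul n r x)
  | mul {n i j : ℕ} {x y : O.H n} : Gen φ S n i x → Gen φ S n j y →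
      Gen φ S n (i + j) (O.mul n x y)
  | pull {n m j : ℕ} {x : O.H n} {f : O.H n → O.H m} : f ∈ O.pull n m → Gen φ S n j x →
      Gen φ S m j (f x)
  | push {n m i j : ℕ} {x : O.H m} {y : O.H n} {f : O.H n → O.H m} : f ∈ O.pull n m →
      Gen φ S m j x → (∀ z, O.tr n (O.mul n z y) = O.tr m (O.mul m (f z) x)) →
      j + O.dim n = i + O.dim m → Gen φ S n i y
  | frob {n j : ℕ} {x : O.H (n + 1)} {p : O.H n → O.H (n + 1)} {q : O.H 0 → O.H (n + 1)}
      {t : O.H (n + 1) → O.H (n + 1)} : p ∈ O.pull n (n + 1) → q ∈ O.pull 0 (n + 1) →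
      (∀ x, InSpan O (n + 1) {z | ∃ a b, z = O.mul (n + 1) (p a) (q b)} x) →
      IsLinear O (n + 1) t →
      (∀ a b, t (O.mul (n + 1) (p a) (q b)) = O.mul (n + 1) (p a) (q (φ b))) →
      Gen φ S (n + 1) j x → Gen φ S (n + 1) j (t x)

/-- The product with the `r`-th power of the class `L`. -/
def lef (n : ℕ) (L : O.H n) (r : ℕ) (x : O.H n) : O.H n := (O.mul n L)^[r] x

/-- Positivity for the class `x` of codimension `j` on `X_y ^ (n + 1)` and the polarisation `L`, of
dimension `d`: if `2 j ≤ d` and `x` is primitive and not zero, then `(-1) ^ j tr(L ^ (d - 2 j) x x)`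
is a positive real number (for every embedding of the coefficients into the complex numbers). -/
def Positive (n : ℕ) (L : O.H n) (j : ℕ) (x : O.H n) : Prop :=
  2 * j ≤ O.dim n → lef O n L (O.dim n - 2 * j + 1) x = O.zero n → x ≠ O.zero n →
    ∀ σ : E →+* ℂ, ∃ r : ℝ, 0 < r ∧
      (-1) ^ j * σ (O.tr n (O.mul n (lef O n L (O.dim n - 2 * j) x) x)) = r

/-- The inverses of the Lefschetz operators `L ^ (d - i)` from degree `i` to degree `2 d - i` of
`X_y ^ (n + 1)`, of dimension `d`, are correspondences given by classes in `S` on the product of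
`X_y ^ (n + 1)` with itself; `p` and `q` are the pull-backs along coordinate maps
`X ^ (2 n + 2) → X ^ (n + 1)`, in the intended use the two projections of the product. -/
def InverseIn (S : ∀ n : ℕ, ℕ → Set (O.H n)) (n : ℕ) (L : O.H n) : Prop :=
  ∃ p ∈ O.pull n (2 * n + 1), ∃ q ∈ O.pull n (2 * n + 1), O.dim (2 * n + 1) = 2 * O.dim n ∧
    ∀ i ≤ O.dim n, ∃ l ∈ S (2 * n + 1) i, ∀ x ∈ O.gr n i, ∀ z,
      O.tr n (O.mul n z x) =
        O.tr (2 * n + 1) (O.mul (2 * n + 1) (q z)
          (O.mul (2 * n + 1) (p (lef O n L (O.dim n - i) x)) l))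

/-- Homological and numerical equivalence coincide for the generated classes on `X_y ^ (n + 1)`. -/
def HomNum (φ : O.H 0 → O.H 0) (S : ∀ n : ℕ, ℕ → Set (O.H n)) (n : ℕ) : Prop :=
  ∀ i j, i + j = O.dim n → ∀ x, Gen O φ S n j x →
    (∀ y, Gen O φ S n i y → O.tr n (O.mul n y x) = 0) → x = O.zero n

end Generic

section Cohomology

open Pool.Agent.H914 Pool.Agent.H914.VarClass Pool.Agent.H914.VarClass.Obj
  Pool.Agent.H914.WeilCohomology
open Pool.Agent.Y121.AHS Pool.Agent.N996.BP
open Pool.Agent.Y133.Half (pw)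

variable {k : Type u} [Field k] {𝒱 : VarClass k} {ops : CycleOps 𝒱} (T : HodgeTheory ops)

/-- The Hodge-Riemann bilinear relations for the divisor `D` on `Y`, of dimension `d` (the classical
theorem for ample `D`): the complex conjugation maps `H^(p,q)` to `H^(q,p)`, and
`(-1) ^ (i (i - 1) / 2) i ^ (p - q) tr(D ^ (d - i) x x̄)` is a positive real number if `x` is
primitive of type `(p, q)` and not zero, `i = p + q ≤ d`. -/
def HodgeRiemann (Y : 𝒱.Obj) (D : Y.Cycles) : Prop :=
  Y.IsCyc 1 D ∧
  (∀ (p q : ℤ) (x : HL T.W ℂ Y), IsType T.pq p q x → IsType T.pq q p (conjH T x)) ∧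
  ∀ (p q : ℤ) (i : ℕ) (x : HL T.W ℂ Y), p + q = i → i ≤ Y.dim → IsType T.pq p q x →
    x ≠ vzero _ → (mulL (emL T.W ℂ (ap (T.W.cl Y) D)))^[Y.dim - i + 1] x = vzero _ →
    ∃ r : ℝ, 0 < r ∧ (-1) ^ (i * (i - 1) / 2) * Complex.I ^ (p - q) *
      trL (mulL ((mulL (emL T.W ℂ (ap (T.W.cl Y) D)))^[Y.dim - i] x) (conjH T x)) = r

/-- The rational classes in `S`, with coefficients in `E`. -/
def ext (E : Type) [Field E] [Algebra T.W.K E] {X : 𝒱.Obj}
    (S : ∀ n : ℕ, ℕ → Set (T.W.H (pw X n))) (n j : ℕ) : Set (HL T.W E (pw X n)) :=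
  {x | ∃ c ∈ S n j, x = emL T.W E c}

/-- The standard conjecture of Hodge type (positivity) for the generated classes on
`X_y ^ (n + 1)` and the polarisation given by the divisor `D` on `X ^ (n + 1)`. -/
def HodgeType (E : Type) [Field E] [Algebra T.W.K E] {X : 𝒱.Obj} (ψ : RForm T.W X)
    (φ : (coh T E ψ).H 0 → (coh T E ψ).H 0) (S : ∀ n : ℕ, ℕ → Set (T.W.H (pw X n))) (n : ℕ)
    (D : (pw X n).Cycles) : Prop :=
  ∀ j x, Gen (coh T E ψ) φ (ext T E S) n j x →
    Positive (coh T E ψ) n (emL T.W E (ap (T.W.cl (pw X n)) D)) j x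

end Cohomology

end Pool.Agent.N204.HR.Raw
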