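import Pool.Agent.N204.HR.Asm3
import Pool.Agent.N204.HR.Asm4
import Pool.Agent.N945.HR.CO
import Pool.Agent.N655.HR.MA
import Pool.Agent.N262.HR.LV
import Pool.Agent.N966.HR.TF
import Pool.Agent.N232.HR.WC
import Pool.Agent.N595.HR.JF
import Pool.Agent.N222.HR.NS
import Pool.Agent.N521.HR.EC
import Pool.Agent.N816.HR.Hd
import Pool.Agent.N505.HR.GD
import Pool.Agent.N603.HR.KD

/-!
# Positivity of the generated classes: the theorem
-/

set_option linter.unusedSectionVars false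

open CategoryTheory AlgebraicGeometry TensorProduct

universe u

namespace Pool.Agent.N204.HR

open Pool.Agent.H914 Pool.Agent.H914.VarClass
open Pool.Agent.Y133.Half (pw)
open Pool.Agent.Y121.AHS
open Pool.Agent.N996.BP (RForm IsPolarisation)
open Pool.Agent.N204.RD.Raw (Coh coh ap)
open Pool.Agent.N204.HR.Raw

variable {k : Type u} [Field k] {𝒱 : VarClass k} {ops : CycleOps 𝒱} {T : HodgeTheory ops}
  {X : 𝒱.Obj} {ψ : RForm T.W X} {E : Type} [Field E] [Algebra T.W.K E] {q : ℕ}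
  {φ : ∀ n, (coh T E ψ).H n → (coh T E ψ).H n} {S : ∀ n : ℕ, ℕ → Set (T.W.H (pw X n))}

/-- Semisimplicity implies positivity. -/
theorem positive (hψ : IsPolarisation T X ψ) (hS : ∀ n j, ∀ c ∈ S n j, IsHodge T (pw X n) j c)
    (h : IsFrobenius (coh T E ψ) q φ (Raw.ext T E S)) (hss : Semisimple (coh T E ψ) q (φ 0))
    (n : ℕ) (D : (pw X n).Cycles)
    (hD : HodgeRiemann T (pw X n) D) (hDS : ap (T.W.cl (pw X n)) D ∈ S n 1) (j : ℕ)
    (x : (coh T E ψ).H n) (hx : Gen (coh T E ψ) (φ 0) (Raw.ext T E S) n j x) :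
    Positive (coh T E ψ) n (emL T.W E (ap (T.W.cl (pw X n)) D)) j x :=
  (main (N262.HR.lv (N655.HR.ma N945.HR.co)) N966.HR.tf N232.HR.wc N595.HR.jf N222.HR.ns N521.HR.ec
    N816.HR.hd N505.HR.gd N603.HRKD.kd T X ψ hψ E q φ S hS (h.isFrob hss) n D hD hDS).1 j x hx

/-- Positivity implies that homological and numerical equivalence coincide. -/
theorem homNum (σ : Nonempty (E →+* ℂ)) (hS : ∀ n j, ∀ c ∈ S n j, IsHodge T (pw X n) j c)
    (h : IsFrobenius (coh T E ψ) q φ (Raw.ext T E S)) (n : ℕ) (D : (pw X n).Cycles)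
    (hD : HodgeRiemann T (pw X n) D) (hDS : ap (T.W.cl (pw X n)) D ∈ S n 1)
    (hpos : ∀ j x, Gen (coh T E ψ) (φ 0) (Raw.ext T E S) n j x →
      Positive (coh T E ψ) n (emL T.W E (ap (T.W.cl (pw X n)) D)) j x)
    (hI : InverseIn (coh T E ψ) (Raw.ext T E S) n (emL T.W E (ap (T.W.cl (pw X n)) D))) :
    HomNum (coh T E ψ) (φ 0) (Raw.ext T E S) n :=
  N603.HRKD.kd k 𝒱 ops T X ψ E (φ 0) S σ.some n D hD.1 hDS
    (N505.HR.gd k 𝒱 ops T X ψ E (φ 0) S (fun n j c hc => (hS n j c hc).1) (h.lin 0) (h.deg 0))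
    hpos hI

end Pool.Agent.N204.HR
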