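import Pool.Agent.N204.RD.Stm0
import Pool.Agent.N996.BP.Geo1
import Pool.Agent.N211.BT.Act
import Pool.Agent.Y121.AHS.Conv

/-!
# Positivity of the classes generated by specialised classes and the Frobenius: statements of the parts
-/

set_option linter.unusedSectionVars false

open CategoryTheory AlgebraicGeometry TensorProduct

universe u

namespace Pool.Agent.N204.HR

open Module Matrix
open Pool.Agent.H914 Pool.Agent.H914.VarClass Pool.Agent.H914.VarClass.Obj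
  Pool.Agent.H914.WeilCohomology
open Pool.Agent.Y133.Half (pw pfst psnd wb)
open Pool.Agent.Y121.AH (HodgeTheory CW em IsHodge)
open Pool.Agent.N996.BP (kp IsCoordinateMap IsPHS)
open Pool.Agent.N996.BP.Geo (cc lop tauT Fx)
open Pool.Agent.N204.RD (FixA)

/-! ### Matrices -/

/-- **Task CO** (compact conjugation, the matrix may permute the arrays). -/
def S_CO : Prop := ∀ (ι : Type) [Fintype ι] [DecidableEq ι] (𝒜 : ∀ κ : Type, Set ((κ → ι) → ℂ)),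
  (∀ p, FixA 𝒜 p → IsUnit p ∧ FixA 𝒜 pᴴ) →
  ∀ (F P Pi : Matrix ι ι ℂ) (lam : ι → ℂ),
  (∀ (κ : Type) [Fintype κ] [DecidableEq κ], ∀ a ∈ 𝒜 κ,
    kp κ F *ᵥ a ∈ 𝒜 κ ∧ kp κ Fᴴ *ᵥ (kp κ F *ᵥ a) = a) →
  P * Pi = 1 → F = P * Matrix.diagonal lam * Pi → (∀ i, ‖lam i‖ = 1) →
  ∃ g gi : Matrix ι ι ℂ, FixA 𝒜 g ∧ FixA 𝒜 gi ∧ g * gi = 1 ∧
    (g * F * gi)ᴴ * (g * F * gi) = 1

section Arrays

variable {ι : Type} [Fintype ι] [DecidableEq ι]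

/-- The array `a` and its images under the powers of `s` are fixed by the antilinear operator with
the matrix `c`, and some power of `s` fixes `a`. -/
def Good (c s : Matrix ι ι ℂ) (κ : Type) [Fintype κ] [DecidableEq κ] (a : (κ → ι) → ℂ) : Prop :=
  (∀ k : ℕ, kp κ c *ᵥ star (kp κ (s ^ k) *ᵥ a) = kp κ (s ^ k) *ᵥ a) ∧
    ∃ m : ℕ, 0 < m ∧ kp κ (s ^ m) *ᵥ a = a

end Arrays

/-- **Task MA** (the conjugating matrix). -/
def S_MA : Prop := ∀ (ι : Type) [Fintype ι] [DecidableEq ι] (Q s P Pi : Matrix ι ι ℂ) (lam : ι → ℂ),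
  Qᴴ * Q = 1 → sᵀ * Q * s = Q → P * Pi = 1 → s = P * Matrix.diagonal lam * Pi →
  (∀ i, ‖lam i‖ = 1) →
  ∃ g gi : Matrix ι ι ℂ, g * gi = 1 ∧ gᵀ * Q * g = Q ∧
    (g * s * gi) * Qᴴ = Qᴴ * (g * s * gi).map star ∧
    (∀ (κ : Type) [Fintype κ] [DecidableEq κ] (a : (κ → ι) → ℂ), Good Qᴴ s κ a →
      kp κ g *ᵥ a = a) ∧
    ∀ (κ : Type) [Fintype κ] [DecidableEq κ] (t : (κ → ι) → ℂ),
      kp κ (Qᴴ)ᵀ *ᵥ t = star t → kp κ sᵀ *ᵥ t = t → kp κ gᵀ *ᵥ t = t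

/-! ### Linear algebra -/

/-- The matrix of a map in a basis. -/
noncomputable def mat {K A : Type} [Field K] [AddCommGroup A] [Module K A] {ι : Type}
    (e : Basis ι K A) (u : A → A) : Matrix ι ι K := Matrix.of fun i j => e.repr (u (e j)) i

/-- **Task LV** (the conjugating automorphism). -/
def S_LV : Prop := ∀ (A : Type) [Ring A] [Algebra ℂ A] [Module.Finite ℂ A]
  (gr : ℕ → Submodule ℂ A) (tr : A →ₗ[ℂ] ℂ) (ψ : LinearMap.BilinForm ℂ A) (J : A → A)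
  (s : A →ₐ[ℂ] A), DirectSum.IsInternal gr →
  (∀ x y, J (x + y) = J x + J y) → (∀ (c : ℂ) x, J (c • x) = star c • J x) →
  (∀ x y, J (x * y) = J x * J y) → (∀ i, ∀ x ∈ gr i, J x ∈ gr i) →
  (∀ x, tr (J x) = star (tr x)) → (∀ x y, ψ (J x) (J y) = star (ψ x y)) →
  (∀ x, x ≠ 0 → ∃ r : ℝ, 0 < r ∧ ψ x (J x) = r) →
  (∀ i, ∀ x ∈ gr i, s x ∈ gr i) → (∀ x, tr (s x) = tr x) → (∀ x y, ψ (s x) (s y) = ψ x y) →
  (∃ (κ : Type) (_ : Fintype κ) (b : Basis κ ℂ A) (lam : κ → ℂ),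
    ∀ i, s (b i) = lam i • b i ∧ ‖lam i‖ = 1) →
  ∃ (ι : Type) (_ : Fintype ι) (_ : DecidableEq ι) (e : Basis ι ℂ A) (g : A ≃ₐ[ℂ] A),
    (∀ i, ∀ x ∈ gr i, g x ∈ gr i) ∧ (∀ x, tr (g x) = tr x) ∧
    (∀ x, J (g (s (g.symm x))) = g (s (g.symm (J x)))) ∧
    ∀ (κ : Type) [Fintype κ] [DecidableEq κ] (a : (κ → ι) → ℂ),
      Good (mat e J) (mat e s) κ a → kp κ (mat e g) *ᵥ a = a

/-! ### Powers of a variety -/

/-- **Task TF** (the automorphisms of the cohomology of the powers). -/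
def S_TF : Prop := ∀ (k : Type u) [Field k] (𝒱 : VarClass k) (ops : CycleOps 𝒱)
  (W : WeilCohomology.{u, 0} ops) (X : 𝒱.Obj) (g : W.H X ≃ₐ[W.K] W.H X),
  (∀ i, ∀ x ∈ W.gr X i, g x ∈ W.gr X i) → (∀ x, W.tr X (g x) = W.tr X x) →
  ∃ G : ∀ n, W.H (pw X n) ≃ₐ[W.K] W.H (pw X n), (∀ x : W.H X, G 0 x = g x) ∧
    (∀ n i, ∀ x ∈ W.gr (pw X n) i, G n x ∈ W.gr (pw X n) i) ∧
    (∀ n x, W.tr (pw X n) (G n x) = W.tr (pw X n) x) ∧
    ∀ (n m : ℕ) (f : pw X m ⟶ pw X n), IsCoordinateMap f → ∀ x,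
      G m (W.map f x) = W.map f (G n x)

/-- **Task WC** (multiplicative families in coordinates). -/
def S_WC : Prop := ∀ (k : Type u) [Field k] (𝒱 : VarClass k) (ops : CycleOps 𝒱)
  (W : WeilCohomology.{u, 0} ops) (X : 𝒱.Obj) (τ : W.K →+* W.K)
  (U : ∀ n, W.H (pw X n) → W.H (pw X n)),
  (∀ n x y, U n (x + y) = U n x + U n y) → (∀ n (c : W.K) x, U n (c • x) = τ c • U n x) →
  (∀ n x y, U n (x * y) = U n x * U n y) →
  (∀ n x, U (n + 1) (W.map (pfst X n) x) = W.map (pfst X n) (U n x)) →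
  (∀ n x, U (n + 1) (W.map (psnd X n) x) = W.map (psnd X n) (U 0 x)) →
  ∀ (ι : Type) [Fintype ι] [DecidableEq ι] (e : Basis ι W.K (W.H X)) (n : ℕ) (x : W.H (pw X n)),
    (wb e n).equivFun (U n x) =
      kp (Fin (n + 1)) (mat e (U 0)) *ᵥ fun w => τ ((wb e n).equivFun x w)

/-! ### Hodge theories -/

section Hodge

variable {k : Type u} [Field k] {𝒱 : VarClass k} {ops : CycleOps 𝒱}

/-- The antilinear operator `J`, with `J x = i ^ (p - q) x̄` for `x` of type `(p, q)` if `x̄` is of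
type `(q, p)`. -/
noncomputable def Jop (T : HodgeTheory ops) (Y : 𝒱.Obj) (x : (CW T).H Y) : (CW T).H Y :=
  lop T Complex.I⁻¹ Y (sig (tauT T) x)

/-- The complex conjugation of the coefficients. -/
noncomputable def starC (T : HodgeTheory ops) (c : (CW T).K) : (CW T).K := cc T (star (show ℂ from c))

/-- The complex number of a coefficient. -/
def toC (T : HodgeTheory ops) (c : (CW T).K) : ℂ := c

end Hodge

/-- **Task JF** (the operator `J`). -/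
def S_JF : Prop := ∀ (k : Type u) [Field k] (𝒱 : VarClass k) (ops : CycleOps 𝒱)
  (T : HodgeTheory ops),
  (∀ Y x y, Jop T Y (x + y) = Jop T Y x + Jop T Y y) ∧
  (∀ Y (c : (CW T).K) x, Jop T Y (c • x) = starC T c • Jop T Y x) ∧
  (∀ Y x y, Jop T Y (x * y) = Jop T Y x * Jop T Y y) ∧
  (∀ (Y Z : 𝒱.Obj) (f : Y ⟶ Z) x, Jop T Y ((CW T).map f x) = (CW T).map f (Jop T Z x)) ∧
  (∀ Y x, (CW T).tr Y (Jop T Y x) = starC T ((CW T).tr Y x)) ∧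
  (∀ Y i, ∀ x ∈ (CW T).gr Y i, Jop T Y x ∈ (CW T).gr Y i) ∧
  (∀ Y x, ∃ y, Jop T Y y = x) ∧
  (∀ Y j (c : T.W.H Y), IsHodge T Y j c → Jop T Y (em T.W ℂ c) = em T.W ℂ c) ∧
  ∀ (X : 𝒱.Obj) (ψ : LinearMap.BilinForm T.W.K (T.W.H X)) (d : ℕ), IsPHS (tauT T) (Fx T X) ψ d →
    (∀ x y : (CW T).H X, ψ.baseChange ℂ (Jop T X x) (Jop T X y) = star (ψ.baseChange ℂ x y)) ∧
    ∀ x : (CW T).H X, x ≠ 0 → ∃ r : ℝ, 0 < r ∧ ψ.baseChange ℂ x (Jop T X x) = r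

section Frob

variable {k : Type u} [Field k] {𝒱 : VarClass k} {ops : CycleOps 𝒱}

/-- A Frobenius system on the cohomology with complex coefficients. -/
structure FrobC (T : HodgeTheory ops) (X : 𝒱.Obj) (ψ : LinearMap.BilinForm T.W.K (T.W.H X))
    (q : ℝ) (Φ : ∀ n, (CW T).H (pw X n) →ₐ[(CW T).K] (CW T).H (pw X n))
    (S : ∀ n : ℕ, ℕ → Set (T.W.H (pw X n))) : Prop where
  q_pos : 0 < q
  gr : ∀ n i, ∀ x ∈ (CW T).gr (pw X n) i, Φ n x ∈ (CW T).gr (pw X n) i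
  map : ∀ (n m : ℕ) (f : pw X m ⟶ pw X n), IsCoordinateMap f → ∀ x,
    Φ m ((CW T).map f x) = (CW T).map f (Φ n x)
  tr : ∀ x : (CW T).H X, (CW T).tr X (Φ 0 x) = cc T ((q : ℂ) ^ X.dim) * (CW T).tr X x
  hodge : ∀ n j, ∀ c ∈ S n j, IsHodge T (pw X n) j c
  conj : ∀ n j, ∀ c ∈ S n j, ∃ c' ∈ S n j,
    Φ n (em T.W ℂ c) = cc T ((q : ℂ) ^ j) • em T.W ℂ c'
  fix : ∀ n j, ∀ c ∈ S n j, ∃ m : ℕ, 0 < m ∧
    (Φ n)^[m] (em T.W ℂ c) = cc T ((q : ℂ) ^ (j * m)) • em T.W ℂ c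
  form : ∀ i, ∀ x ∈ (CW T).gr X i, ∀ y : (CW T).H X,
    ψ.baseChange ℂ (Φ 0 x) (Φ 0 y) = (q : ℂ) ^ i * ψ.baseChange ℂ x y
  eig : ∃ (κ : Type) (_ : Fintype κ) (b : Basis κ (CW T).K ((CW T).H X)) (dg : κ → ℕ)
    (lam : κ → ℂ), ∀ i, b i ∈ (CW T).gr X (dg i) ∧ Φ 0 (b i) = cc T (lam i) • b i ∧
      ‖lam i‖ ^ 2 = q ^ dg i

end Frob

/-- **Task NS** (the normalised Frobenius). -/
def S_NS : Prop := ∀ (k : Type u) [Field k] (𝒱 : VarClass k) (ops : CycleOps 𝒱)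
  (T : HodgeTheory ops) (X : 𝒱.Obj) (ψ : LinearMap.BilinForm T.W.K (T.W.H X)) (d : ℕ) (q : ℝ)
  (Φ : ∀ n, (CW T).H (pw X n) →ₐ[(CW T).K] (CW T).H (pw X n))
  (S : ∀ n : ℕ, ℕ → Set (T.W.H (pw X n))), IsPHS (tauT T) (Fx T X) ψ d → FrobC T X ψ q Φ S →
  ∃ s : ∀ n, (CW T).H (pw X n) →ₐ[(CW T).K] (CW T).H (pw X n),
    (∀ n i, ∀ x ∈ (CW T).gr (pw X n) i,
      Φ n x = cc T (((Real.sqrt q : ℝ) : ℂ) ^ i) • s n x ∧ s n x ∈ (CW T).gr (pw X n) i) ∧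
    (∀ (n m : ℕ) (f : pw X m ⟶ pw X n), IsCoordinateMap f → ∀ x,
      s m ((CW T).map f x) = (CW T).map f (s n x)) ∧
    (∀ x : (CW T).H X, (CW T).tr X (s 0 x) = (CW T).tr X x) ∧
    (∀ x y : (CW T).H X, ψ.baseChange ℂ (s 0 x) (s 0 y) = ψ.baseChange ℂ x y) ∧
    (∀ n j, ∀ c ∈ S n j, ∃ c' ∈ S n j, s n (em T.W ℂ c) = em T.W ℂ c') ∧
    (∀ n j, ∀ c ∈ S n j, ∃ m : ℕ, 0 < m ∧ (s n)^[m] (em T.W ℂ c) = em T.W ℂ c) ∧
    ∃ (κ : Type) (_ : Fintype κ) (b : Basis κ (CW T).K ((CW T).H X)) (lam : κ → ℂ),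
      ∀ i, s 0 (b i) = cc T (lam i) • b i ∧ ‖lam i‖ = 1

end Pool.Agent.N204.HR
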