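import Pool.Agent.N204.HR.Stm2
import Pool.Agent.Y133.Half.Par

/-!
# Homological = numerical equivalence for the generated classes implies semisimplicity: the parts
-/

set_option linter.unusedSectionVars false

open CategoryTheory AlgebraicGeometry TensorProduct

universe u

namespace Pool.Agent.N204.HR

open Module
open Pool.Agent.H914 Pool.Agent.H914.VarClass Pool.Agent.H914.VarClass.Obj
  Pool.Agent.H914.WeilCohomology
open Pool.Agent.Y133.Half (pw)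
open Pool.Agent.Y121.AH (em)
open Pool.Agent.Y121.AHS
open Pool.Agent.N996.BP (IsCoordinateMap RForm)
open Pool.Agent.N204.RD.Raw (coh ap)
open Pool.Agent.N204.HR.Raw

/-- A Frobenius system on the cohomology of the powers of `X`. -/
structure FrobK {k : Type u} [Field k] {𝒱 : VarClass k} {ops : CycleOps 𝒱}
    (W : WeilCohomology.{u, 0} ops) (X : 𝒱.Obj) (q : ℕ)
    (Φ : ∀ n, W.H (pw X n) → W.H (pw X n)) : Prop where
  q_pos : 0 < q
  add : ∀ n x y, Φ n (x + y) = Φ n x + Φ n y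
  smul : ∀ n (c : W.K) x, Φ n (c • x) = c • Φ n x
  mul : ∀ n x y, Φ n (x * y) = Φ n x * Φ n y
  gr : ∀ n i, ∀ x ∈ W.gr (pw X n) i, Φ n x ∈ W.gr (pw X n) i
  map : ∀ (n m : ℕ) (f : pw X m ⟶ pw X n), IsCoordinateMap f → ∀ x,
    Φ m (W.map f x) = W.map f (Φ n x)
  tr : ∀ x : W.H (pw X 0), W.tr (pw X 0) (Φ 0 x) = (q : W.K) ^ X.dim * W.tr (pw X 0) x

/-- **Task F1** (traces and push-forwards). -/
def S_F1 : Prop := ∀ (k : Type u) [Field k] (𝒱 : VarClass k) (ops : CycleOps 𝒱)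
  (W : WeilCohomology.{u, 0} ops) (X : 𝒱.Obj) (q : ℕ) (Φ : ∀ n, W.H (pw X n) → W.H (pw X n)),
  FrobK W X q Φ →
  (∀ n x, W.tr (pw X n) (Φ n x) = (q : W.K) ^ (pw X n).dim * W.tr (pw X n) x) ∧
  (∀ n, Function.Bijective (Φ n)) ∧
  ∀ (n m : ℕ) (f : pw X m ⟶ pw X n), IsCoordinateMap f → ∀ (x : W.H (pw X m)) (y : W.H (pw X n)),
    (∀ z, W.tr (pw X n) (z * y) = W.tr (pw X m) (W.map f z * x)) →
    ∀ z, (q : W.K) ^ (pw X m).dim * W.tr (pw X n) (z * Φ n y) =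
      (q : W.K) ^ (pw X n).dim * W.tr (pw X m) (W.map f z * Φ m x)

/-- **Task F2** (a power of the Frobenius fixes a generated class). -/
def S_F2 : Prop := ∀ (k : Type u) [Field k] (𝒱 : VarClass k) (ops : CycleOps 𝒱)
  (T : HodgeTheory ops) (X : 𝒱.Obj) (ψ : RForm T.W X) (E : Type) [Field E] [Algebra T.W.K E]
  (q : ℕ) (φ : ∀ n, (coh T E ψ).H n → (coh T E ψ).H n) (S : ∀ n : ℕ, ℕ → Set (T.W.H (pw X n))),
  IsFrobenius (coh T E ψ) q φ (Raw.ext T E S) →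
  ∀ (n j : ℕ) (x : (coh T E ψ).H n), Gen (coh T E ψ) (φ 0) (Raw.ext T E S) n j x →
    ∃ m : ℕ, 0 < m ∧ (φ n)^[m] x = (coh T E ψ).smul n ((q : E) ^ (j * m)) x

/-- **Task F3** (the correspondence of a fixed class commutes with the Frobenius). -/
def S_F3 : Prop := ∀ (k : Type u) [Field k] (𝒱 : VarClass k) (ops : CycleOps 𝒱)
  (W : WeilCohomology.{u, 0} ops) (X : 𝒱.Obj) (q : ℕ) (Φ : ∀ n, W.H (pw X n) → W.H (pw X n)),
  FrobK W X q Φ → ∀ (c : W.H (X.prod X)) (m : ℕ),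
  (Φ 1)^[m] c = (q : W.K) ^ (X.dim * m) • c →
  ∀ a : W.H X, (Φ 0)^[m] (W.corr c a) = W.corr c ((Φ 0)^[m] a)

/-- **Task F4** (the trace of a product with a commuting nilpotent operator). -/
def S_F4 : Prop := ∀ (k : Type u) [Field k] (𝒱 : VarClass k) (ops : CycleOps 𝒱)
  (W : WeilCohomology.{u, 0} ops) (X : 𝒱.Obj) (u : Module.End W.K (W.H X)),
  (∀ i, ∀ x ∈ W.gr X i, u x ∈ W.gr X i) →
  (IsNilpotent u → ∀ c ∈ W.gr (X.prod X) (2 * X.dim),
    (∀ a, u (W.corr (W.map (swap X X) c) a) = W.corr (W.map (swap X X) c) (u a)) →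
    W.tr (X.prod X) (c * extOp W 1 u (W.push (diag X) 1)) = 0) ∧
  (extOp W 1 u (W.push (diag X) 1) = 0 → u = 0)

/-- **Task F5** (the classes of the polynomials in the Frobenius are generated). -/
def S_F5 : Prop := ∀ (k : Type u) [Field k] (𝒱 : VarClass k) (ops : CycleOps 𝒱)
  (T : HodgeTheory ops) (X : 𝒱.Obj) (ψ : RForm T.W X) (E : Type) [Field E] [Algebra T.W.K E]
  (q : ℕ) (φ : ∀ n, (coh T E ψ).H n → (coh T E ψ).H n) (S : ∀ n : ℕ, ℕ → Set (T.W.H (pw X n))),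
  IsFrobenius (coh T E ψ) q φ (Raw.ext T E S) →
  Gen (coh T E ψ) (φ 0) (Raw.ext T E S) 0 0 (emL T.W E (1 : T.W.H X)) →
  ∀ (F : Module.End (baseW T.W E).K ((baseW T.W E).H X)),
    (∀ x : (baseW T.W E).H X, F x = (show (baseW T.W E).H X from φ 0 x)) →
    ∀ R : Polynomial ℤ, Gen (coh T E ψ) (φ 0) (Raw.ext T E S) 1 X.dim
      (extOp (baseW T.W E) 1 (Polynomial.aeval F R) ((baseW T.W E).push (diag X) 1))

/-- **Task F6** (a common power). -/
def S_F6 : Prop := ∀ (K V : Type) [Field K] [AddCommGroup V] [Module K V] [Module.Finite K V]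
  (f : Module.End K V) (c : K) (G : Set V), (∀ v ∈ G, ∃ m : ℕ, 0 < m ∧ f^[m] v = c ^ m • v) →
  ∃ m : ℕ, 0 < m ∧ ∀ v ∈ G, f^[m] v = c ^ m • v

/-- **Task F7** (polynomials without multiple roots). -/
def S_F7 : Prop := ∀ (K V ι : Type) [Field K] [CharZero K] [AddCommGroup V] [Module K V]
  [Module.Finite K V] (U : ι → Submodule K V) (F : Module.End K V) (Q : ι → Polynomial ℤ) (m : ℕ),
  (⨆ i, U i) = ⊤ → 0 < m → (∀ i, (Q i).Monic) →
  (∀ i, ∀ y : ℂ, Polynomial.aeval y (Q i) = 0 → y ≠ 0) →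
  (∀ i, ∀ x ∈ U i, F x ∈ U i) → (∀ i, ∀ x ∈ U i, Polynomial.aeval F (Q i) x = 0) →
  (∀ R : Polynomial ℤ, IsNilpotent (Polynomial.aeval (F ^ m) R) →
    Polynomial.aeval (F ^ m) R = 0) →
  ∀ i, ∃ Q' : Polynomial ℤ, Q'.Monic ∧ Squarefree (Q'.map (Int.castRingHom ℚ)) ∧
    (∀ y : ℂ, Polynomial.aeval y Q' = 0 → Polynomial.aeval y (Q i) = 0) ∧
    ∀ x ∈ U i, Polynomial.aeval F Q' x = 0

end Pool.Agent.N204.HR
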